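import Mathlib

/-!
Definitions for the joints problem in simple matroids (MP_66cbdd_co).
-/

namespace Pool.Agent.H177.Joints

open Set

/-- A matroid is simple if it has no loops and no parallel pairs: for all `x, y` in the ground set
the set `{x, y}` is independent (the case `x = y` says that `x` is not a loop). -/
def IsSimple {α : Type} (M : Matroid α) : Prop :=
  ∀ x ∈ M.E, ∀ y ∈ M.E, M.Indep {x, y}

/-- A line of a matroid is a flat of rank `2`. -/
def IsLine {α : Type} (M : Matroid α) (l : Set α) : Prop :=
  M.IsFlat l ∧ M.eRk l = 2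

/-- `x` is an `n`-dimensional joint of the set `Ls` of lines of `M`: there are lines
`l 0, …, l (n-1)` in `Ls`, all through `x`, whose union has rank at least `n + 1`. -/
def IsJoint {α : Type} (M : Matroid α) (n : ℕ) (Ls : Set (Set α)) (x : α) : Prop :=
  x ∈ M.E ∧ ∃ l : Fin n → Set α, (∀ i, l i ∈ Ls ∧ x ∈ l i) ∧
    ((n + 1 : ℕ) : ℕ∞) ≤ M.eRk (⋃ i, l i)

/-- The numbers of `n`-dimensional joints that occur: `j` is in this set if for some simple matroid
`M` on a finite type and some set `Ls` of exactly `L` lines of `M`, the number of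
`n`-dimensional joints of `Ls` is `j`. -/
def jointCounts (n L : ℕ) : Set ℕ :=
  {j | ∃ (α : Type) (_ : Finite α) (M : Matroid α) (Ls : Set (Set α)),
    IsSimple M ∧ (∀ l ∈ Ls, IsLine M l) ∧ Ls.ncard = L ∧
    {x | IsJoint M n Ls x}.ncard = j}

/-- `J n L` is the maximum number of `n`-dimensional joints of a set of `L` lines of a finite
simple matroid. -/
noncomputable def J (n L : ℕ) : ℕ := sSup (jointCounts n L)

end Pool.Agent.H177.Joints
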