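import Pool.Agent.H177.Joints.SparseHyper

/-!
Real-exponent forms of the bounds.
-/

namespace Pool.Agent.H177.Joints

open Finset

/-- Upper bound with real exponents. -/
theorem J_le (n : ℕ) (hn : 2 ≤ n) (L : ℕ) :
    (J n L : ℝ) ≤ ((2 ^ (n / 2 - 1) * (n - 1) : ℕ) : ℝ) *
      (L : ℝ) ^ ((3 : ℝ) / 2 + 1 / (4 * ((n / 2 : ℕ) : ℝ) - 2)) := by
  obtain ⟨i, hi⟩ : ∃ i, n / 2 = i + 1 := ⟨n / 2 - 1, by omega⟩
  have h := J_pow_le (n := n) L hn (i + 1) (by omega) (by omega)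
  rw [hi]
  have e1 : 2 * (i + 1) - 1 = 2 * i + 1 := by omega
  have e2 : 3 * (i + 1) - 1 = 3 * i + 2 := by omega
  have e3 : i + 1 - 1 = i := by omega
  rw [e1, e2, e3] at h
  rw [e3]
  set c : ℕ := 2 ^ i * (n - 1) with hc
  have hc1 : 1 ≤ c := by
    rw [hc]
    exact Nat.mul_pos (by positivity) (by omega)
  have hexp : (3 : ℝ) / 2 + 1 / (4 * ((i + 1 : ℕ) : ℝ) - 2) = ((3 * i + 2 : ℕ) : ℝ) / ((2 * i + 1 : ℕ) : ℝ) := by
    push_cast
    have h1 : (4 * ((i : ℝ) + 1) - 2) = 2 * (2 * i + 1) := by ring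
    rw [h1]
    have h2 : (2 * (i : ℝ) + 1) ≠ 0 := by positivity
    field_simp
    ring
  rw [hexp]
  have hpow : (J n L : ℝ) ^ (2 * i + 1) ≤
      ((c : ℝ) * (L : ℝ) ^ (((3 * i + 2 : ℕ) : ℝ) / ((2 * i + 1 : ℕ) : ℝ))) ^ (2 * i + 1) := by
    rw [mul_pow, ← Real.rpow_natCast ((L : ℝ) ^ (((3 * i + 2 : ℕ) : ℝ) / ((2 * i + 1 : ℕ) : ℝ))),
      ← Real.rpow_mul (Nat.cast_nonneg L), div_mul_cancel₀ _ (by positivity), Real.rpow_natCast]
    have h1 : ((J n L : ℝ)) ^ (2 * i + 1) ≤ (c : ℝ) * (L : ℝ) ^ (3 * i + 2) := by exact_mod_cast h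
    refine h1.trans ?_
    apply mul_le_mul_of_nonneg_right _ (by positivity)
    have : (1 : ℝ) ≤ c := by exact_mod_cast hc1
    calc (c : ℝ) = (c : ℝ) ^ 1 := (pow_one _).symm
      _ ≤ (c : ℝ) ^ (2 * i + 1) := pow_le_pow_right₀ this (by omega)
  exact le_of_pow_le_pow_left₀ (by omega) (by positivity) hpow

/-- Lower bound with integer parameters. -/
theorem J_ge (n M : ℕ) (hn : 2 ≤ n) (hM : 2 ≤ M) :
    ∃ L0 : ℕ, ∀ L ≥ L0, ∃ b : ℕ, 1 ≤ b ∧ L ≤ n * 2 ^ (2 * M) * b ^ (2 * M) ∧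
      b ^ (3 * M - 1) ≤ 2 * J n L := by
  obtain ⟨b0, hb0⟩ := exists_sparse n M (n * 2 ^ (2 * M)) hn hM
    (Nat.mul_pos (by omega) (by positivity))
  refine ⟨n * (b0 + 1) ^ (2 * M), ?_⟩
  intro L hL
  set P : ℕ → Prop := fun b => n * b ^ (2 * M) ≤ L with hP
  have hP0 : P (b0 + 1) := hL
  have hle : b0 + 1 ≤ L := by
    calc b0 + 1 = (b0 + 1) ^ 1 := (pow_one _).symm
      _ ≤ (b0 + 1) ^ (2 * M) := Nat.pow_le_pow_right (by omega) (by omega)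
      _ ≤ n * (b0 + 1) ^ (2 * M) := Nat.le_mul_of_pos_left _ (by omega)
      _ ≤ L := hL
  have : DecidablePred P := fun b => by rw [hP]; infer_instance
  set b := Nat.findGreatest P L with hb
  have hb1 : b0 + 1 ≤ b := Nat.le_findGreatest hle hP0
  have hbP : P b := Nat.findGreatest_spec hle hP0
  have hnext : L < n * (b + 1) ^ (2 * M) := by
    by_contra hcon
    push Not at hcon
    have h1 : b + 1 ≤ L := by
      calc b + 1 = (b + 1) ^ 1 := (pow_one _).symm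
        _ ≤ (b + 1) ^ (2 * M) := Nat.pow_le_pow_right (by omega) (by omega)
        _ ≤ n * (b + 1) ^ (2 * M) := Nat.le_mul_of_pos_left _ (by omega)
        _ ≤ L := hcon
    have h2 : b + 1 ≤ Nat.findGreatest P L := Nat.le_findGreatest h1 hcon
    omega
  have hup : L ≤ n * 2 ^ (2 * M) * b ^ (2 * M) := by
    have h1 : (b + 1) ^ (2 * M) ≤ (2 * b) ^ (2 * M) := Nat.pow_le_pow_left (by omega) _
    calc L ≤ n * (b + 1) ^ (2 * M) := hnext.le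
      _ ≤ n * (2 * b) ^ (2 * M) := Nat.mul_le_mul_left _ h1
      _ = n * 2 ^ (2 * M) * b ^ (2 * M) := by rw [mul_pow]; ring
  refine ⟨b, by omega, hup, ?_⟩
  obtain ⟨K, _, _, g, hs, hcard⟩ := hb0 b (by omega) (Fin L)
    (by rw [Fintype.card_fin]; exact hbP) (by rw [Fintype.card_fin]; exact hup)
  have h1 := hs.card_le_J hn (Nat.mul_pos (by omega) (by omega))
  rw [Fintype.card_fin] at h1
  omega

/-- Lower bound with real exponents. -/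
theorem rpow_le_J (n : ℕ) (hn : 2 ≤ n) (ε : ℝ) (hε : 0 < ε) :
    ∃ L0 : ℕ, ∀ L ≥ L0, (L : ℝ) ^ ((3 : ℝ) / 2 - ε) ≤ J n L := by
  obtain ⟨M0, hM0⟩ := exists_nat_gt (1 / ε)
  set M := M0 + 2 with hM
  have hM2 : 2 ≤ M := by omega
  have hMε : 1 / (2 * (M : ℝ)) ≤ ε / 2 := by
    have h1 : 1 / ε < (M : ℝ) := hM0.trans_le (by rw [hM]; push_cast; linarith)
    have hMpos : (0 : ℝ) < M := by positivity
    rw [div_lt_iff₀ hε] at h1
    rw [div_le_div_iff₀ (by positivity) (by positivity)]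
    nlinarith
  obtain ⟨L1, hL1⟩ := J_ge n M hn hM2
  set c : ℝ := ((n * 2 ^ (2 * M) : ℕ) : ℝ) with hc
  have hc1 : 1 ≤ c := by
    rw [hc]
    exact_mod_cast Nat.mul_pos (by omega : 0 < n) (by positivity)
  have hc0 : 0 < c := by linarith
  -- threshold
  obtain ⟨L2, hL2⟩ := exists_nat_gt ((2 * c ^ 2) ^ (2 / ε))
  refine ⟨max (max L1 L2) 1, ?_⟩
  intro L hL
  have hLa : L1 ≤ L := le_trans (le_trans (le_max_left _ _) (le_max_left _ _)) hL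
  have hLb : L2 ≤ L := le_trans (le_trans (le_max_right _ _) (le_max_left _ _)) hL
  have hLc : 1 ≤ L := le_trans (le_max_right _ _) hL
  obtain ⟨b, hb1, hLb', hJ⟩ := hL1 L hLa
  have hLpos : (0 : ℝ) < L := by exact_mod_cast hLc
  have hbpos : (0 : ℝ) < b := by exact_mod_cast hb1
  set θ : ℝ := ((3 * M - 1 : ℕ) : ℝ) / ((2 * M : ℕ) : ℝ) with hθ
  have hθ' : θ = 3 / 2 - 1 / (2 * (M : ℝ)) := by
    rw [hθ, Nat.cast_sub (by omega)]
    push_cast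
    have : (M : ℝ) ≠ 0 := by positivity
    field_simp
  have hθ0 : 0 ≤ θ := by rw [hθ]; positivity
  have hθ2 : θ ≤ 2 := by
    rw [hθ']
    have : 0 ≤ 1 / (2 * (M : ℝ)) := by positivity
    linarith
  have h1 : (L : ℝ) ≤ c * (b : ℝ) ^ (2 * M) := by
    rw [hc]
    exact_mod_cast hLb'
  have h2 : (L : ℝ) ^ θ ≤ c ^ θ * (b : ℝ) ^ (3 * M - 1) := by
    calc (L : ℝ) ^ θ ≤ (c * (b : ℝ) ^ (2 * M)) ^ θ := Real.rpow_le_rpow hLpos.le h1 hθ0
      _ = c ^ θ * ((b : ℝ) ^ (2 * M)) ^ θ := Real.mul_rpow hc0.le (by positivity)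
      _ = c ^ θ * (b : ℝ) ^ (3 * M - 1) := by
          congr 1
          rw [← Real.rpow_natCast (b : ℝ) (2 * M), ← Real.rpow_mul hbpos.le, hθ,
            mul_div_cancel₀ _ (by positivity), Real.rpow_natCast]
  have h3 : c ^ θ ≤ c ^ 2 := by
    rw [← Real.rpow_natCast c 2]
    exact Real.rpow_le_rpow_of_exponent_le hc1 (by push_cast; exact hθ2)
  have h4 : (b : ℝ) ^ (3 * M - 1) ≤ 2 * (J n L : ℝ) := by exact_mod_cast hJ
  have h5 : (L : ℝ) ^ θ ≤ (2 * c ^ 2) * (J n L : ℝ) := by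
    calc (L : ℝ) ^ θ ≤ c ^ θ * (b : ℝ) ^ (3 * M - 1) := h2
      _ ≤ c ^ 2 * (2 * (J n L : ℝ)) := by
          apply mul_le_mul h3 h4 (by positivity) (by positivity)
      _ = (2 * c ^ 2) * (J n L : ℝ) := by ring
  have h6 : 2 * c ^ 2 ≤ (L : ℝ) ^ (ε / 2) := by
    have h7 : (2 * c ^ 2) ^ (2 / ε) ≤ (L : ℝ) := hL2.le.trans (by exact_mod_cast hLb)
    calc 2 * c ^ 2 = ((2 * c ^ 2) ^ (2 / ε)) ^ (ε / 2) := by
          rw [← Real.rpow_mul (by positivity)]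
          have : 2 / ε * (ε / 2) = 1 := by field_simp
          rw [this, Real.rpow_one]
      _ ≤ (L : ℝ) ^ (ε / 2) := Real.rpow_le_rpow (by positivity) h7 (by positivity)
  have h8 : (L : ℝ) ^ ((3 : ℝ) / 2 - ε) * (2 * c ^ 2) ≤ (L : ℝ) ^ θ := by
    calc (L : ℝ) ^ ((3 : ℝ) / 2 - ε) * (2 * c ^ 2)
        ≤ (L : ℝ) ^ ((3 : ℝ) / 2 - ε) * (L : ℝ) ^ (ε / 2) :=
          mul_le_mul_of_nonneg_left h6 (by positivity)
      _ = (L : ℝ) ^ ((3 : ℝ) / 2 - ε + ε / 2) := (Real.rpow_add hLpos _ _).symm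
      _ ≤ (L : ℝ) ^ θ := by
          apply Real.rpow_le_rpow_of_exponent_le (by exact_mod_cast hLc)
          rw [hθ']
          linarith
  have h9 : (L : ℝ) ^ ((3 : ℝ) / 2 - ε) * (2 * c ^ 2) ≤ (J n L : ℝ) * (2 * c ^ 2) := by
    rw [mul_comm (J n L : ℝ)]
    exact h8.trans h5
  exact le_of_mul_le_mul_right h9 (by positivity)

end Pool.Agent.H177.Joints
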