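import Mathlib

/-!
A matroid on a finite type from an integer valued rank function.
-/

namespace Pool.Agent.H177.Joints

open Finset

/-- The rank axioms for an integer valued function on the subsets of a finite type. -/
structure RankFn (E : Type) [DecidableEq E] where
  r : Finset E → ℤ
  empty : r ∅ = 0
  mono : ∀ ⦃A B : Finset E⦄, A ⊆ B → r A ≤ r B
  insert_le : ∀ (e : E) (A : Finset E), r (insert e A) ≤ r A + 1
  submod : ∀ A B : Finset E, r (A ∪ B) + r (A ∩ B) ≤ r A + r B

namespace RankFn

variable {E : Type} [DecidableEq E] [Fintype E] (f : RankFn E)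

omit [Fintype E] in
lemma le_add_card (A B : Finset E) : f.r (A ∪ B) ≤ f.r A + B.card := by
  induction B using Finset.induction_on with
  | empty => simp
  | insert e B he ih =>
    rw [Finset.union_insert, Finset.card_insert_of_notMem he]
    have := f.insert_le e (A ∪ B)
    push_cast
    linarith

omit [Fintype E] in
lemma le_card (A : Finset E) : f.r A ≤ A.card := by
  have := f.le_add_card ∅ A
  rw [Finset.empty_union, f.empty] at this
  linarith

omit [Fintype E] in
lemma nonneg (A : Finset E) : 0 ≤ f.r A := by
  rw [← f.empty]
  exact f.mono (Finset.empty_subset _)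

omit [Fintype E] in
/-- if no single element raises the rank, then nothing does -/
lemma union_eq (A B : Finset E) (h : ∀ e ∈ B, f.r (insert e A) = f.r A) :
    f.r (A ∪ B) = f.r A := by
  induction B using Finset.induction_on with
  | empty => simp
  | insert e B he ih =>
    have ih' := ih (fun e' he' => h e' (Finset.mem_insert_of_mem he'))
    have h1 := h e (Finset.mem_insert_self _ _)
    have h2 := f.submod (A ∪ B) (insert e A)
    have e1 : A ∪ B ∪ insert e A = A ∪ insert e B := by
      ext x; simp only [Finset.mem_union, Finset.mem_insert]; tauto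
    rw [e1] at h2
    have h3 : f.r A ≤ f.r ((A ∪ B) ∩ insert e A) := by
      apply f.mono
      intro x hx
      simp only [Finset.mem_inter, Finset.mem_union, Finset.mem_insert]
      exact ⟨Or.inl hx, Or.inr hx⟩
    have h4 : f.r A ≤ f.r (A ∪ insert e B) := f.mono Finset.subset_union_left
    linarith

/-- The matroid of a rank function. -/
noncomputable def toMatroid : Matroid E :=
  (IndepMatroid.ofFinset Set.univ (fun I => f.r I = I.card)
    (by simp [f.empty])
    (by
      intro I J hJ hIJ
      have h1 := f.le_add_card I (J \ I)
      rw [Finset.union_sdiff_of_subset hIJ, hJ] at h1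
      have h2 := Finset.card_sdiff_add_card_eq_card hIJ
      have h3 := f.le_card I
      have h4 : ((J \ I).card : ℤ) + I.card = J.card := by exact_mod_cast h2
      linarith)
    (by
      intro I J hI hJ hIJ
      by_contra hcon
      push Not at hcon
      have h1 : ∀ e ∈ J, f.r (insert e I) = f.r I := by
        intro e he
        by_cases heI : e ∈ I
        · rw [Finset.insert_eq_of_mem heI]
        · have h2 := hcon e he heI
          have h3 := f.insert_le e I
          have h4 := f.mono (Finset.subset_insert e I)
          rw [Finset.card_insert_of_notMem heI] at h2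
          push_cast at h2
          rw [hI] at h3 h4 ⊢
          have h5 : f.r (insert e I) < (I.card : ℤ) + 1 := lt_of_le_of_ne h3 h2
          linarith [Int.lt_add_one_iff.mp h5]
      have h2 := f.union_eq I J h1
      have h3 : f.r J ≤ f.r (I ∪ J) := f.mono Finset.subset_union_right
      rw [h2, hI, hJ] at h3
      have h4 : J.card ≤ I.card := by exact_mod_cast h3
      omega)
    (by intro I _; exact Set.subset_univ _)).matroid

omit [Fintype E] in
lemma toMatroid_E : f.toMatroid.E = Set.univ := rfl

omit [Fintype E] in
lemma indep_iff (I : Finset E) : f.toMatroid.Indep (I : Set E) ↔ f.r I = I.card := by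
  unfold toMatroid
  rw [IndepMatroid.matroid_indep_iff, IndepMatroid.ofFinset_indep]

lemma eRk_eq (A : Finset E) : f.toMatroid.eRk (A : Set E) = ((f.r A).toNat : ℕ∞) := by
  obtain ⟨I, hI⟩ := f.toMatroid.exists_isBasis (A : Set E) (by rw [toMatroid_E]; exact Set.subset_univ _)
  have hIfin : I.Finite := Set.toFinite I
  obtain ⟨I', rfl⟩ := hIfin.exists_finset_coe
  have hind := (f.indep_iff I').mp hI.indep
  have hsub : I' ⊆ A := by exact_mod_cast hI.subset
  have h1 : ∀ e ∈ A, f.r (insert e I') = f.r I' := by
    intro e he
    by_cases heI : e ∈ I'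
    · rw [Finset.insert_eq_of_mem heI]
    · have h2 : ¬ f.toMatroid.Indep ((insert e I' : Finset E) : Set E) := by
        intro hcon
        rw [Finset.coe_insert] at hcon
        have := hI.mem_of_insert_indep (by exact_mod_cast he) hcon
        exact heI (by exact_mod_cast this)
      rw [f.indep_iff, Finset.card_insert_of_notMem heI] at h2
      have h3 := f.insert_le e I'
      have h4 := f.mono (Finset.subset_insert e I')
      push_cast at h2
      rw [hind] at h3 h4 ⊢
      have h5 : f.r (insert e I') < (I'.card : ℤ) + 1 := lt_of_le_of_ne h3 h2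
      linarith [Int.lt_add_one_iff.mp h5]
  have h2 := f.union_eq I' A h1
  rw [Finset.union_eq_right.mpr hsub] at h2
  rw [← hI.encard_eq_eRk, Set.encard_coe_eq_coe_finsetCard, h2, hind, Int.toNat_natCast]

/-- Criterion for flats. -/
lemma isFlat_of_forall (F : Finset E) (h : ∀ e, e ∉ F → f.r F < f.r (insert e F)) :
    f.toMatroid.IsFlat (F : Set E) := by
  rw [Matroid.isFlat_iff_closure_eq]
  apply Set.Subset.antisymm
  · intro e he
    by_contra heF
    have heF' : e ∉ F := by exact_mod_cast heF
    have h1 := h e heF'
    have h2 : f.toMatroid.eRk ((insert e F : Finset E) : Set E) ≤ f.toMatroid.eRk (F : Set E) := by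
      rw [← f.toMatroid.eRk_closure_eq (F : Set E)]
      apply f.toMatroid.eRk_mono
      rw [Finset.coe_insert]
      intro x hx
      rcases hx with rfl | hx
      · exact he
      · exact f.toMatroid.mem_closure_of_mem' hx (by rw [toMatroid_E]; exact Set.mem_univ _)
    rw [f.eRk_eq, f.eRk_eq] at h2
    have h3 : (f.r (insert e F)).toNat ≤ (f.r F).toNat := by exact_mod_cast h2
    have h4 := f.nonneg F
    omega
  · exact f.toMatroid.subset_closure _ (by rw [toMatroid_E]; exact Set.subset_univ _)

end RankFn

end Pool.Agent.H177.Joints
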