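import Pool.Agent.H177.Joints.Upper
import Pool.Agent.H177.Joints.RankFn

/-!
A simple matroid with many joints from a locally sparse hypergraph.
-/

namespace Pool.Agent.H177.Joints

open Finset

/-- The excess of a set `X` of vertices with respect to a family of hyperedges
`g j 0, …, g j (n-1)`. -/
def exc {V K : Type} [DecidableEq V] [Fintype K] {n : ℕ} (g : K → Fin n → V) (X : Finset V) : ℕ :=
  ∑ j, ((Finset.univ.filter (fun i => g j i ∈ X)).card - 1)

/-- Local sparsity of a family of hyperedges. -/
structure Sparse {V K : Type} [DecidableEq V] [Fintype K] {n : ℕ} (C0 : ℕ)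
    (g : K → Fin n → V) : Prop where
  inj : ∀ j, Function.Injective (g j)
  two : ∀ X : Finset V, X.card ≤ 2 * C0 → 2 ≤ X.card → exc g X + 3 ≤ 2 * X.card
  big : ∀ X : Finset V, X.card ≤ 2 * C0 → (C0 ≤ X.card ∨ ∃ j, ∀ i, g j i ∈ X) →
    exc g X + n + 1 ≤ 2 * X.card

namespace Sparse

variable {V K : Type} [DecidableEq V] [Fintype V] [DecidableEq K] [Fintype K] {n : ℕ}
  (g : K → Fin n → V)

/-- Ground set: the joints, and `n + 1` private points on each line. -/
abbrev Pt (V K : Type) (n : ℕ) : Type := K ⊕ (V × Fin (n + 1))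

/-- incidence of points and lines -/
def Inc : Pt V K n → V → Prop
  | Sum.inl j, l => ∃ i, g j i = l
  | Sum.inr p, l => p.1 = l

instance : DecidableRel (Inc g) := fun e l => by
  cases e with
  | inl j => unfold Inc; infer_instance
  | inr p => unfold Inc; infer_instance

/-- the points on a line -/
def pts (l : V) : Finset (Pt V K n) := Finset.univ.filter (fun e => Inc g e l)

/-- the points on a set of lines -/
def cov (X : Finset V) : Finset (Pt V K n) := Finset.univ.filter (fun e => ∃ l ∈ X, Inc g e l)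

lemma mem_pts {l : V} {e : Pt V K n} : e ∈ pts g l ↔ Inc g e l := by simp [pts]

lemma mem_cov {X : Finset V} {e : Pt V K n} : e ∈ cov g X ↔ ∃ l ∈ X, Inc g e l := by simp [cov]

/-- the number of lines of `X` through a point -/
lemma card_filter_inl (hg : ∀ j, Function.Injective (g j)) (X : Finset V) (j : K) :
    (X.filter (fun l => Inc g (Sum.inl j : Pt V K n) l)).card
      = (Finset.univ.filter (fun i => g j i ∈ X)).card := by
  have h : X.filter (fun l => Inc g (Sum.inl j : Pt V K n) l)
      = (Finset.univ.filter (fun i => g j i ∈ X)).image (g j) := by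
    ext l
    rw [Finset.mem_filter, Finset.mem_image]
    constructor
    · rintro ⟨hl, i, hi⟩
      exact ⟨i, Finset.mem_filter.mpr ⟨Finset.mem_univ _, hi ▸ hl⟩, hi⟩
    · rintro ⟨i, hi, rfl⟩
      exact ⟨(Finset.mem_filter.mp hi).2, i, rfl⟩
  rw [h, Finset.card_image_of_injective _ (hg j)]

lemma card_filter_inr (X : Finset V) (p : V × Fin (n + 1)) :
    (X.filter (fun l => Inc g (Sum.inr p : Pt V K n) l)).card ≤ 1 := by
  rw [Finset.card_le_one]
  intro a ha b hb
  rw [Finset.mem_filter] at ha hb
  exact ha.2.symm.trans hb.2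

lemma sum_card_pts (hg : ∀ j, Function.Injective (g j)) (X : Finset V) :
    ∑ l ∈ X, (pts g l).card = (cov g X).card + exc g X := by
  have h1 : ∑ l ∈ X, (pts g l).card
      = ∑ e : Pt V K n, (X.filter (fun l => Inc g e l)).card := by
    simp only [pts, Finset.card_filter]
    rw [Finset.sum_comm]
  have h2 : ∀ e : Pt V K n, (X.filter (fun l => Inc g e l)).card
      = (if e ∈ cov g X then 1 else 0) + ((X.filter (fun l => Inc g e l)).card - 1) := by
    intro e
    by_cases he : e ∈ cov g X
    · rw [if_pos he]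
      rw [mem_cov] at he
      obtain ⟨l, hl, hel⟩ := he
      have : 0 < (X.filter (fun l => Inc g e l)).card := by
        rw [Finset.card_pos]
        exact ⟨l, Finset.mem_filter.mpr ⟨hl, hel⟩⟩
      omega
    · rw [if_neg he]
      have : (X.filter (fun l => Inc g e l)).card = 0 := by
        rw [Finset.card_eq_zero, Finset.filter_eq_empty_iff]
        intro l hl hel
        exact he (mem_cov g |>.mpr ⟨l, hl, hel⟩)
      omega
  rw [h1, Finset.sum_congr rfl (fun e _ => h2 e), Finset.sum_add_distrib]
  congr 1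
  · rw [Finset.sum_ite_mem, Finset.univ_inter, Finset.sum_const, smul_eq_mul, mul_one]
  · rw [Fintype.sum_sum_type]
    have h3 : ∑ p : V × Fin (n + 1),
        ((X.filter (fun l => Inc g (Sum.inr p : Pt V K n) l)).card - 1) = 0 := by
      apply Finset.sum_eq_zero
      intro p _
      have := card_filter_inr (K := K) g X p
      omega
    rw [h3, add_zero]
    unfold exc
    apply Finset.sum_congr rfl
    intro j _
    rw [card_filter_inl g hg]

/-- the rank contribution of a set of lines and a set of points -/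
def phi (X : Finset V) (A : Finset (Pt V K n)) : ℤ :=
  ((A ∪ cov g X).card : ℤ) - ∑ l ∈ X, (((pts g l).card : ℤ) - 2)

lemma phi_empty_left (A : Finset (Pt V K n)) : phi g ∅ A = A.card := by
  unfold phi
  have : cov g (∅ : Finset V) = ∅ := by
    ext e; simp [mem_cov]
  rw [this]
  simp

lemma phi_mono (X : Finset V) {A B : Finset (Pt V K n)} (h : A ⊆ B) : phi g X A ≤ phi g X B := by
  unfold phi
  have : (A ∪ cov g X).card ≤ (B ∪ cov g X).card :=
    Finset.card_le_card (Finset.union_subset_union_left h)
  have h' : ((A ∪ cov g X).card : ℤ) ≤ ((B ∪ cov g X).card : ℤ) := by exact_mod_cast this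
  linarith

lemma phi_insert (X : Finset V) (e : Pt V K n) (A : Finset (Pt V K n)) :
    phi g X (insert e A) ≤ phi g X A + 1 := by
  unfold phi
  rw [Finset.insert_union]
  have : (insert e (A ∪ cov g X)).card ≤ (A ∪ cov g X).card + 1 := Finset.card_insert_le _ _
  have h' : ((insert e (A ∪ cov g X)).card : ℤ) ≤ ((A ∪ cov g X).card : ℤ) + 1 := by
    exact_mod_cast this
  linarith

lemma phi_submod (X Y : Finset V) (A B : Finset (Pt V K n)) :
    phi g (X ∪ Y) (A ∪ B) + phi g (X ∩ Y) (A ∩ B) ≤ phi g X A + phi g Y B := by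
  unfold phi
  have h1 := Finset.sum_union_inter (s₁ := X) (s₂ := Y) (f := fun l => ((pts g l).card : ℤ) - 2)
  have h2 := Finset.card_union_add_card_inter (A ∪ cov g X) (B ∪ cov g Y)
  have h3 : A ∪ B ∪ cov g (X ∪ Y) ⊆ (A ∪ cov g X) ∪ (B ∪ cov g Y) := by
    intro e he
    simp only [Finset.mem_union, mem_cov] at he ⊢
    rcases he with (he | he) | ⟨l, hl | hl, hel⟩
    · exact Or.inl (Or.inl he)
    · exact Or.inr (Or.inl he)
    · exact Or.inl (Or.inr ⟨l, hl, hel⟩)
    · exact Or.inr (Or.inr ⟨l, hl, hel⟩)
  have h4 : A ∩ B ∪ cov g (X ∩ Y) ⊆ (A ∪ cov g X) ∩ (B ∪ cov g Y) := by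
    intro e he
    simp only [Finset.mem_union, Finset.mem_inter, mem_cov] at he ⊢
    rcases he with ⟨h1, h2⟩ | ⟨l, ⟨hl1, hl2⟩, hel⟩
    · exact ⟨Or.inl h1, Or.inl h2⟩
    · exact ⟨Or.inr ⟨l, hl1, hel⟩, Or.inr ⟨l, hl2, hel⟩⟩
  have h5 := Finset.card_le_card h3
  have h6 := Finset.card_le_card h4
  have h7 : ((A ∪ B ∪ cov g (X ∪ Y)).card : ℤ) + ((A ∩ B ∪ cov g (X ∩ Y)).card : ℤ)
      ≤ ((A ∪ cov g X).card : ℤ) + ((B ∪ cov g Y).card : ℤ) := by
    exact_mod_cast (by omega : (A ∪ B ∪ cov g (X ∪ Y)).card + (A ∩ B ∪ cov g (X ∩ Y)).card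
      ≤ (A ∪ cov g X).card + (B ∪ cov g Y).card)
  linarith

/-- `phi` in terms of the excess -/
lemma phi_ge (hg : ∀ j, Function.Injective (g j)) (X : Finset V) (A : Finset (Pt V K n))
    (B : Finset (Pt V K n)) (hB : B ⊆ A) (hBX : ∀ e ∈ B, e ∉ cov g X) :
    2 * (X.card : ℤ) - exc g X + B.card ≤ phi g X A := by
  unfold phi
  have h1 := sum_card_pts g hg X
  have h2 : (B ∪ cov g X).card = B.card + (cov g X).card := by
    apply Finset.card_union_of_disjoint
    rw [Finset.disjoint_left]
    exact hBX
  have h3 : (B ∪ cov g X).card ≤ (A ∪ cov g X).card :=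
    Finset.card_le_card (Finset.union_subset_union_left hB)
  have h4 : ∑ l ∈ X, (((pts g l).card : ℤ) - 2) = ((cov g X).card : ℤ) + exc g X - 2 * X.card := by
    rw [Finset.sum_sub_distrib]
    have : (∑ l ∈ X, ((pts g l).card : ℤ)) = ((cov g X).card : ℤ) + exc g X := by
      exact_mod_cast h1
    rw [this, Finset.sum_const, nsmul_eq_mul]
    ring
  rw [h4]
  have h5 : (B.card : ℤ) + (cov g X).card ≤ (A ∪ cov g X).card := by
    exact_mod_cast (by omega : B.card + (cov g X).card ≤ (A ∪ cov g X).card)
  linarith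

lemma exc_of_card_le_one (hg : ∀ j, Function.Injective (g j)) {X : Finset V} (hX : X.card ≤ 1) :
    exc g X = 0 := by
  unfold exc
  apply Finset.sum_eq_zero
  intro j _
  have : (Finset.univ.filter (fun i => g j i ∈ X)).card ≤ X.card := by
    apply Finset.card_le_card_of_injOn (g j)
    · intro i hi
      rw [Finset.mem_coe, Finset.mem_filter] at hi
      exact hi.2
    · exact (hg j).injOn
  omega

variable {g} {C0 : ℕ} (hs : Sparse C0 g)

include hs in
lemma height_ge {X : Finset V} (hX : X.card ≤ 2 * C0) :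
    (X.card = 0 ∧ (2 * (X.card : ℤ) - exc g X) = 0) ∨
    (X.card = 1 ∧ (2 * (X.card : ℤ) - exc g X) = 2) ∨
    (2 ≤ X.card ∧ 3 ≤ (2 * (X.card : ℤ) - exc g X)) := by
  rcases Nat.lt_or_ge X.card 2 with h | h
  · have h0 := exc_of_card_le_one g hs.inj (X := X) (by omega)
    interval_cases hc : X.card
    · left; simp [h0]
    · right; left; simp [h0]
  · right; right
    refine ⟨h, ?_⟩
    have := hs.two X hX h
    have h' : (exc g X : ℤ) + 3 ≤ 2 * X.card := by exact_mod_cast this
    linarith

variable (g C0) in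
/-- the small sets of lines -/
def small : Finset (Finset V) := Finset.univ.filter (fun X => X.card ≤ 2 * C0)

lemma mem_small {X : Finset V} : X ∈ small (V := V) C0 ↔ X.card ≤ 2 * C0 := by simp [small]

variable (V C0) in
lemma small_nonempty : (small (V := V) C0).Nonempty := ⟨∅, by rw [mem_small]; simp⟩

variable (g C0) in
/-- the rank function -/
def rk (A : Finset (Pt V K n)) : ℤ :=
  min ((n : ℤ) + 1) ((small C0).inf' (small_nonempty V C0) (fun X => phi g X A))

lemma rk_le_top (A : Finset (Pt V K n)) : rk g C0 A ≤ (n : ℤ) + 1 := min_le_left _ _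

lemma rk_le {X : Finset V} (hX : X.card ≤ 2 * C0) (A : Finset (Pt V K n)) :
    rk g C0 A ≤ phi g X A :=
  (min_le_right _ _).trans (Finset.inf'_le _ (mem_small.mpr hX))

lemma rk_cases (A : Finset (Pt V K n)) :
    rk g C0 A = (n : ℤ) + 1 ∨ ∃ X : Finset V, X.card ≤ 2 * C0 ∧ rk g C0 A = phi g X A := by
  obtain ⟨X, hX, hXe⟩ := Finset.exists_mem_eq_inf' (small_nonempty V C0) (fun X => phi g X A)
  rcases min_choice ((n : ℤ) + 1) ((small C0).inf' (small_nonempty V C0) (fun X => phi g X A))
    with h | h
  · exact Or.inl h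
  · exact Or.inr ⟨X, mem_small.mp hX, by rw [rk, h, hXe]⟩

lemma le_rk_of {A : Finset (Pt V K n)} (m : ℤ) (hm : m ≤ (n : ℤ) + 1)
    (h : ∀ X : Finset V, X.card ≤ 2 * C0 → m ≤ phi g X A) : m ≤ rk g C0 A := by
  rcases rk_cases (g := g) (C0 := C0) A with h1 | ⟨X, hX, h1⟩
  · rw [h1]; exact hm
  · rw [h1]; exact h X hX

/-- The rank function of a sparse hypergraph. -/
def rankFn : RankFn (Pt V K n) where
  r := rk g C0
  empty := by
    apply le_antisymm
    · have := rk_le (g := g) (C0 := C0) (X := ∅) (by simp) ∅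
      rw [phi_empty_left] at this
      simpa using this
    · apply le_rk_of 0 (by positivity)
      intro X hX
      have h1 := phi_ge g hs.inj X ∅ ∅ (le_refl _) (by simp)
      have h2 := hs.height_ge hX
      simp only [Finset.card_empty, Nat.cast_zero, add_zero] at h1
      rcases h2 with h2 | h2 | h2 <;> linarith [h2.2]
  mono := by
    intro A B hAB
    rcases rk_cases (g := g) (C0 := C0) B with h1 | ⟨X, hX, h1⟩
    · rw [h1]; exact rk_le_top A
    · rw [h1]; exact (rk_le hX A).trans (phi_mono g X hAB)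
  insert_le := by
    intro e A
    rcases rk_cases (g := g) (C0 := C0) A with h1 | ⟨X, hX, h1⟩
    · rw [h1]; linarith [rk_le_top (g := g) (C0 := C0) (insert e A)]
    · rw [h1]; exact (rk_le hX _).trans (phi_insert g X e A)
  submod := by
    intro A B
    have hmono : ∀ {A B : Finset (Pt V K n)}, A ⊆ B → rk g C0 A ≤ rk g C0 B := by
      intro A B hAB
      rcases rk_cases (g := g) (C0 := C0) B with h1 | ⟨X, hX, h1⟩
      · rw [h1]; exact rk_le_top A
      · rw [h1]; exact (rk_le hX A).trans (phi_mono g X hAB)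
    by_cases hA : rk g C0 A = (n : ℤ) + 1
    · have h1 := rk_le_top (g := g) (C0 := C0) (A ∪ B)
      have h2 := hmono (A := A ∩ B) (B := B) Finset.inter_subset_right
      linarith
    by_cases hB : rk g C0 B = (n : ℤ) + 1
    · have h1 := rk_le_top (g := g) (C0 := C0) (A ∪ B)
      have h2 := hmono (A := A ∩ B) (B := A) Finset.inter_subset_left
      linarith
    have key : ∀ A : Finset (Pt V K n), rk g C0 A ≠ (n : ℤ) + 1 →
        ∃ X : Finset V, X.card < C0 ∧ rk g C0 A = phi g X A := by
      intro A hA
      rcases rk_cases (g := g) (C0 := C0) A with h1 | ⟨X, hX, h1⟩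
      · exact absurd h1 hA
      · refine ⟨X, ?_, h1⟩
        by_contra hcon
        push Not at hcon
        have h2 := hs.big X hX (Or.inl hcon)
        have h3 := phi_ge g hs.inj X A ∅ (Finset.empty_subset _) (by simp)
        have h4 := rk_le_top (g := g) (C0 := C0) A
        have h5 : (exc g X : ℤ) + n + 1 ≤ 2 * X.card := by exact_mod_cast h2
        simp only [Finset.card_empty, Nat.cast_zero, add_zero] at h3
        apply hA
        linarith
    obtain ⟨X, hX, hXe⟩ := key A hA
    obtain ⟨Y, hY, hYe⟩ := key B hB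
    have h1 : (X ∪ Y).card ≤ 2 * C0 := (Finset.card_union_le X Y).trans (by omega)
    have h2 : (X ∩ Y).card ≤ 2 * C0 :=
      (Finset.card_le_card Finset.inter_subset_left).trans (by omega)
    have h3 := rk_le (g := g) h1 (A ∪ B)
    have h4 := rk_le (g := g) h2 (A ∩ B)
    have h5 := phi_submod g X Y A B
    linarith

include hs in
/-- lower bound for the rank in terms of uncovered points -/
lemma le_rk {A : Finset (Pt V K n)} (m : ℕ) (hm : m ≤ n + 1)
    (h0 : m ≤ A.card)
    (h : ∀ X : Finset V, X.card ≤ 2 * C0 → X.card ≠ 0 →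
      ∃ B ⊆ A, (∀ e ∈ B, e ∉ cov g X) ∧ (m : ℤ) ≤ 2 * (X.card : ℤ) - exc g X + B.card) :
    (m : ℤ) ≤ rk g C0 A := by
  apply le_rk_of (m : ℤ) (by exact_mod_cast hm)
  intro X hX
  by_cases hX0 : X.card = 0
  · rw [Finset.card_eq_zero] at hX0
    subst hX0
    rw [phi_empty_left]
    exact_mod_cast h0
  · obtain ⟨B, hBA, hBX, hB⟩ := h X hX hX0
    exact hB.trans (phi_ge g hs.inj X A B hBA hBX)

include hs in
lemma height_two {X : Finset V} (hX : X.card ≤ 2 * C0) (hX0 : X.card ≠ 0) :
    2 ≤ (2 * (X.card : ℤ) - exc g X) := by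
  rcases hs.height_ge hX with h | h | h
  · exact absurd h.1 hX0
  · linarith [h.2]
  · linarith [h.2]

/-- the private points of a line -/
def priv (l : V) : Finset (Pt V K n) := Finset.univ.image (fun i : Fin (n + 1) => Sum.inr (l, i))

lemma priv_card (l : V) : (priv (K := K) (n := n) l).card = n + 1 := by
  unfold priv
  rw [Finset.card_image_of_injective, Finset.card_univ, Fintype.card_fin]
  intro a b hab
  simpa using hab

lemma priv_subset (l : V) : priv (K := K) l ⊆ pts g l := by
  intro e he
  unfold priv at he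
  rw [Finset.mem_image] at he
  obtain ⟨i, -, rfl⟩ := he
  rw [mem_pts]
  rfl

lemma priv_inc {l l' : V} {e : Pt V K n} (he : e ∈ priv (K := K) l) (h : Inc g e l') : l = l' := by
  unfold priv at he
  rw [Finset.mem_image] at he
  obtain ⟨i, -, rfl⟩ := he
  exact h

lemma pts_card (l : V) : n + 1 ≤ (pts g l).card := by
  rw [← priv_card (K := K) l]
  exact Finset.card_le_card (priv_subset l)

lemma isSimple (hn : 1 ≤ n) : IsSimple (rankFn hs).toMatroid := by
  intro x _ y _
  have h1 : ((({x, y} : Finset (Pt V K n)) : Set (Pt V K n))) = {x, y} := by simp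
  rw [← h1, RankFn.indep_iff]
  have hc : ({x, y} : Finset (Pt V K n)).card ≤ 2 := Finset.card_le_two
  apply le_antisymm ((rankFn hs).le_card _)
  apply hs.le_rk _ (by omega) (le_refl _)
  intro X hX hX0
  refine ⟨∅, Finset.empty_subset _, by simp, ?_⟩
  have := hs.height_two hX hX0
  have hc' : ((({x, y} : Finset (Pt V K n)).card : ℕ) : ℤ) ≤ 2 := by exact_mod_cast hc
  simp only [Finset.card_empty, Nat.cast_zero, add_zero]
  linarith

lemma rk_pts (hn : 1 ≤ n) (hC : 1 ≤ C0) (l : V) : (rankFn hs).r (pts g l) = 2 := by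
  apply le_antisymm
  · have h1 : rk g C0 (pts g l) ≤ phi g {l} (pts g l) := rk_le (by simp; omega) _
    have h2 : phi g {l} (pts g l) = 2 := by
      unfold phi
      have : pts g l ∪ cov g {l} = pts g l := by
        ext e
        simp [mem_pts, mem_cov]
      rw [this]
      simp
    rw [h2] at h1
    exact h1
  · have h1 := hs.le_rk (A := pts g l) 2 (by omega) ((pts_card l).trans' (by omega)) (by
      intro X hX hX0
      refine ⟨∅, Finset.empty_subset _, by simp, ?_⟩
      have := hs.height_two hX hX0
      simpa using this)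
    exact_mod_cast h1

lemma isLine (hn : 2 ≤ n) (hC : 1 ≤ C0) (l : V) :
    IsLine (rankFn hs).toMatroid (pts g l : Set (Pt V K n)) := by
  constructor
  · apply RankFn.isFlat_of_forall
    intro e he
    rw [rk_pts hs (by omega) hC]
    have h1 := hs.le_rk (A := insert e (pts g l)) 3 (by omega) (by
      rw [Finset.card_insert_of_notMem he]
      have := pts_card (g := g) l
      omega) (by
      intro X hX hX0
      rcases hs.height_ge hX with h | h | h
      · exact absurd h.1 hX0
      · obtain ⟨l', rfl⟩ := Finset.card_eq_one.mp h.1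
        by_cases hll : l = l'
        · subst hll
          refine ⟨{e}, ?_, ?_, ?_⟩
          · rw [Finset.singleton_subset_iff]
            exact Finset.mem_insert_self _ _
          · intro e' he'
            rw [Finset.mem_singleton] at he'
            subst he'
            rw [mem_cov]
            rintro ⟨l', hl', hel⟩
            rw [Finset.mem_singleton] at hl'
            subst hl'
            exact he ((mem_pts g).mpr hel)
          · rw [h.2]
            simp
        · refine ⟨priv l, (priv_subset l).trans (Finset.subset_insert _ _), ?_, ?_⟩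
          · intro e' he'
            rw [mem_cov]
            rintro ⟨l'', hl'', hel⟩
            rw [Finset.mem_singleton] at hl''
            subst hl''
            exact hll (priv_inc he' hel)
          · rw [h.2, priv_card]
            push_cast
            linarith [(by exact_mod_cast hn : (2 : ℤ) ≤ n)]
      · refine ⟨∅, Finset.empty_subset _, by simp, ?_⟩
        simpa using h.2)
    have h2 : (2 : ℤ) < 3 := by norm_num
    exact lt_of_lt_of_le h2 h1
  · rw [RankFn.eRk_eq, rk_pts hs (by omega) hC]
    rfl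

lemma isJoint (hn : 2 ≤ n) (j : K) :
    IsJoint (rankFn hs).toMatroid n (Set.range (fun l : V => (pts g l : Set (Pt V K n))))
      (Sum.inl j) := by
  refine ⟨by rw [RankFn.toMatroid_E]; exact Set.mem_univ _, fun i => (pts g (g j i) : Set _), ?_, ?_⟩
  · intro i
    refine ⟨⟨g j i, rfl⟩, ?_⟩
    rw [Finset.mem_coe, mem_pts]
    exact ⟨i, rfl⟩
  · have h1 : (⋃ i, ((pts g (g j i) : Finset (Pt V K n)) : Set (Pt V K n)))
        = ((Finset.univ.biUnion (fun i => pts g (g j i)) : Finset (Pt V K n)) : Set (Pt V K n)) := by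
      ext e
      simp
    rw [h1, RankFn.eRk_eq]
    have hcard : ∀ i : Fin n, n + 1 ≤ (Finset.univ.biUnion (fun i => pts g (g j i))).card := by
      intro i
      refine (pts_card (g := g) (g j i)).trans (Finset.card_le_card ?_)
      intro e he
      rw [Finset.mem_biUnion]
      exact ⟨i, Finset.mem_univ _, he⟩
    have h2 := hs.le_rk (A := Finset.univ.biUnion (fun i => pts g (g j i))) (n + 1) (le_refl _)
      (hcard ⟨0, by omega⟩) (by
      intro X hX hX0
      by_cases hstar : ∀ i, g j i ∈ X
      · refine ⟨∅, Finset.empty_subset _, by simp, ?_⟩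
        have h3 := hs.big X hX (Or.inr ⟨j, hstar⟩)
        have h4 : (exc g X : ℤ) + n + 1 ≤ 2 * X.card := by exact_mod_cast h3
        simp only [Finset.card_empty, Nat.cast_zero, add_zero]
        push_cast
        linarith
      · push Not at hstar
        obtain ⟨i, hi⟩ := hstar
        refine ⟨priv (g j i), ?_, ?_, ?_⟩
        · intro e he
          rw [Finset.mem_biUnion]
          exact ⟨i, Finset.mem_univ _, priv_subset _ he⟩
        · intro e he
          rw [mem_cov]
          rintro ⟨l, hl, hel⟩
          exact hi (priv_inc he hel ▸ hl)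
        · rw [priv_card]
          have := hs.height_two hX hX0
          linarith)
    have h3 : ((n + 1 : ℕ) : ℤ) ≤ (rankFn hs).r (Finset.univ.biUnion (fun i => pts g (g j i))) := h2
    have h4 : n + 1 ≤ ((rankFn hs).r (Finset.univ.biUnion (fun i => pts g (g j i)))).toNat := by
      omega
    exact_mod_cast h4

lemma pts_injective : Function.Injective (fun l : V => (pts g l : Set (Pt V K n))) := by
  intro l l' h
  have h1 : (Sum.inr (l, 0) : Pt V K n) ∈ (pts g l : Set (Pt V K n)) := by
    rw [Finset.mem_coe, mem_pts]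
    rfl
  simp only at h
  rw [h, Finset.mem_coe, mem_pts] at h1
  exact h1

include hs in
/-- A sparse hypergraph gives many joints. -/
theorem exists_mem_jointCounts (hn : 2 ≤ n) (hC : 1 ≤ C0) :
    ∃ j ∈ jointCounts n (Fintype.card V), Fintype.card K ≤ j := by
  classical
  refine ⟨{x | IsJoint (rankFn hs).toMatroid n
      (Set.range (fun l : V => (pts g l : Set (Pt V K n)))) x}.ncard, ?_, ?_⟩
  · refine ⟨Pt V K n, inferInstance, (rankFn hs).toMatroid,
      Set.range (fun l : V => (pts g l : Set (Pt V K n))), isSimple hs (by omega), ?_, ?_, rfl⟩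
    · rintro _ ⟨l, rfl⟩
      exact isLine hs hn hC l
    · rw [← Set.image_univ, Set.ncard_image_of_injective _ pts_injective, Set.ncard_univ,
        Nat.card_eq_fintype_card]
  · have h2 : (Set.range (Sum.inl : K → Pt V K n)).ncard = Fintype.card K := by
      rw [← Set.image_univ, Set.ncard_image_of_injective _ Sum.inl_injective, Set.ncard_univ,
        Nat.card_eq_fintype_card]
    rw [← h2]
    apply Set.ncard_le_ncard _ (Set.toFinite _)
    rintro _ ⟨j, rfl⟩
    exact isJoint hs hn j

include hs in
theorem card_le_J (hn : 2 ≤ n) (hC : 1 ≤ C0) : Fintype.card K ≤ J n (Fintype.card V) := by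
  obtain ⟨j, hj, hle⟩ := hs.exists_mem_jointCounts hn hC
  exact hle.trans (le_csSup (bddAbove_jointCounts hn _) hj)

end Sparse

/-- The empty family of hyperedges is sparse. -/
lemma sparse_empty (n L : ℕ) : Sparse (n + 1) (fun (j : Empty) (_ : Fin n) => (j.elim : Fin L)) where
  inj := fun j => j.elim
  two := by
    intro X _ h
    simp only [exc, Finset.univ_eq_empty, Finset.sum_empty]
    omega
  big := by
    rintro X _ (h | ⟨j, _⟩)
    · simp only [exc, Finset.univ_eq_empty, Finset.sum_empty]
      omega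
    · exact j.elim

theorem jointCounts_nonempty {n : ℕ} (hn : 2 ≤ n) (L : ℕ) : (jointCounts n L).Nonempty := by
  obtain ⟨j, hj, -⟩ := (sparse_empty n L).exists_mem_jointCounts hn (by omega)
  rw [Fintype.card_fin] at hj
  exact ⟨j, hj⟩

/-- `J n L` is a maximum. -/
theorem isGreatest_J {n : ℕ} (hn : 2 ≤ n) (L : ℕ) : IsGreatest (jointCounts n L) (J n L) :=
  ⟨Nat.sSup_mem (jointCounts_nonempty hn L) (bddAbove_jointCounts hn L),
    fun _ hj => le_csSup (bddAbove_jointCounts hn L) hj⟩

end Pool.Agent.H177.Joints
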