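import Pool.Agent.H177.Joints.FromHyper

/-!
Existence of locally sparse hypergraphs with many hyperedges (deletion method).
-/

namespace Pool.Agent.H177.Joints

open Finset

/-- choose smaller numbers with a prescribed sum -/
lemma exists_sum_eq {K : Type} [DecidableEq K] (c : K → ℕ) (s : Finset K) :
    ∀ k ≤ ∑ j ∈ s, c j, ∃ c' : K → ℕ, (∀ j, c' j ≤ c j) ∧ (∀ j ∉ s, c' j = 0) ∧
      ∑ j ∈ s, c' j = k := by
  induction s using Finset.induction_on with
  | empty =>
    intro k hk
    refine ⟨fun _ => 0, by simp, by simp, ?_⟩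
    simp only [Finset.sum_empty] at hk ⊢
    omega
  | insert a s ha ih =>
    intro k hk
    rw [Finset.sum_insert ha] at hk
    rcases Nat.lt_or_ge (∑ j ∈ s, c j) k with h | h
    · obtain ⟨c', h1, h2, h3⟩ := ih (∑ j ∈ s, c j) (le_refl _)
      refine ⟨Function.update c' a (k - ∑ j ∈ s, c j), ?_, ?_, ?_⟩
      · intro j
        by_cases hja : j = a
        · subst hja
          rw [Function.update_self]
          omega
        · rw [Function.update_of_ne hja]
          exact h1 j
      · intro j hj
        rw [Finset.mem_insert, not_or] at hj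
        rw [Function.update_of_ne hj.1]
        exact h2 j hj.2
      · rw [Finset.sum_insert ha, Function.update_self]
        have h4 : ∑ j ∈ s, Function.update c' a (k - ∑ j ∈ s, c j) j = ∑ j ∈ s, c' j := by
          apply Finset.sum_congr rfl
          intro j hj
          rw [Function.update_of_ne]
          rintro rfl
          exact ha hj
        rw [h4, h3]
        omega
    · obtain ⟨c', h1, h2, h3⟩ := ih k h
      refine ⟨c', h1, fun j hj => h2 j (fun hjs => hj (Finset.mem_insert_of_mem hjs)), ?_⟩
      rw [Finset.sum_insert ha, h2 a ha, h3, zero_add]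

/-- number of functions with prescribed values on a set -/
lemma card_prescribed {A B : Type} [Fintype A] [DecidableEq A] [Fintype B] [DecidableEq B]
    (S : Finset A) (e0 : A → B) :
    (Finset.univ.filter (fun e : A → B => ∀ c ∈ S, e c = e0 c)).card * Fintype.card B ^ S.card
      = Fintype.card B ^ Fintype.card A := by
  have h1 : (Finset.univ.filter (fun e : A → B => ∀ c ∈ S, e c = e0 c))
      = Fintype.piFinset (fun c => if c ∈ S then {e0 c} else Finset.univ) := by
    ext e
    rw [Finset.mem_filter, Fintype.mem_piFinset]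
    constructor
    · rintro ⟨-, h⟩ c
      by_cases hc : c ∈ S
      · rw [if_pos hc, Finset.mem_singleton]
        exact h c hc
      · rw [if_neg hc]
        exact Finset.mem_univ _
    · intro h
      refine ⟨Finset.mem_univ _, ?_⟩
      intro c hc
      have := h c
      rw [if_pos hc, Finset.mem_singleton] at this
      exact this
  have h2 : Fintype.card B ^ S.card = ∏ c : A, (if c ∈ S then Fintype.card B else 1) := by
    rw [Finset.prod_ite_mem, Finset.univ_inter, Finset.prod_const]
  rw [h1, Fintype.card_piFinset, h2, ← Finset.prod_mul_distrib]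
  rw [← Finset.card_univ (α := A), ← Finset.prod_const]
  apply Finset.prod_congr rfl
  intro c _
  by_cases hc : c ∈ S
  · rw [if_pos hc, if_pos hc, Finset.card_singleton, one_mul]
  · rw [if_neg hc, if_neg hc, Finset.card_univ, mul_one]

/-- weight of a pattern -/
def wt {n m t : ℕ} (a : Fin t → Fin n → Option (Fin m)) : ℕ :=
  ((Finset.univ : Finset (Fin t × Fin n)).filter (fun p => (a p.1 p.2).isSome)).card

/-- bad patterns -/
def BadPat (M : ℕ) {n m t : ℕ} (a : Fin t → Fin n → Option (Fin m)) : Prop :=
  (M - 1) * t + 2 * M * (m + t) ≤ 2 * M * (wt a + 1)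

instance {M n m t : ℕ} (a : Fin t → Fin n → Option (Fin m)) : Decidable (BadPat M a) := by
  unfold BadPat; infer_instance

/-- a pattern is realised by hyperedges `j s` and vertices `v x` -/
def Sat {V K : Type} {n m t : ℕ} (a : Fin t → Fin n → Option (Fin m)) (v : Fin m → V)
    (j : Fin t → K) (g : K → Fin n → V) : Prop :=
  ∀ s i x, a s i = some x → v x = g (j s) i

/-- the hyperedges of an outcome -/
def hyp {V : Type} {n q N : ℕ} (f : Fin n × Fin q ↪ V) (e : Fin N × Fin n → Fin q) :
    Fin N → Fin n → V := fun j i => f (i, e (j, i))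

lemma card_sat_le {V : Type} {n m t q N : ℕ} (f : Fin n × Fin q ↪ V)
    (a : Fin t → Fin n → Option (Fin m)) (v : Fin m → V) (j : Fin t → Fin N)
    (hj : Function.Injective j) :
    (open Classical in Finset.univ.filter (fun e : Fin N × Fin n → Fin q => Sat a v j (hyp f e))).card
      * q ^ wt a ≤ q ^ (N * n) := by
  classical
  set Ω := (Finset.univ.filter (fun e : Fin N × Fin n → Fin q => Sat a v j (hyp f e))) with hΩ
  rcases Finset.eq_empty_or_nonempty Ω with h | ⟨e0, he0⟩
  · rw [h]; simp
  · set S : Finset (Fin N × Fin n) :=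
      ((Finset.univ : Finset (Fin t × Fin n)).filter (fun p => (a p.1 p.2).isSome)).image
        (fun p => (j p.1, p.2)) with hS
    have hScard : S.card = wt a := by
      rw [hS, Finset.card_image_of_injective]
      · rfl
      · rintro ⟨s, i⟩ ⟨s', i'⟩ h
        simp only [Prod.mk.injEq] at h
        rw [hj h.1, h.2]
    have hsub : Ω ⊆ Finset.univ.filter (fun e : Fin N × Fin n → Fin q => ∀ c ∈ S, e c = e0 c) := by
      intro e he
      rw [Finset.mem_filter]
      refine ⟨Finset.mem_univ _, ?_⟩
      intro c hc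
      rw [hS, Finset.mem_image] at hc
      obtain ⟨⟨s, i⟩, hp, rfl⟩ := hc
      rw [Finset.mem_filter] at hp
      obtain ⟨x, hx⟩ := Option.isSome_iff_exists.mp hp.2
      rw [hΩ, Finset.mem_filter] at he he0
      have h1 := he.2 s i x hx
      have h2 := he0.2 s i x hx
      have h3 : f (i, e (j s, i)) = f (i, e0 (j s, i)) := h1.symm.trans h2
      have h4 := f.injective h3
      simp only [Prod.mk.injEq, true_and] at h4
      exact h4
    have h5 := card_prescribed S e0
    rw [hScard, Fintype.card_fin, Fintype.card_prod, Fintype.card_fin, Fintype.card_fin] at h5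
    rw [← h5]
    exact Nat.mul_le_mul_right _ (Finset.card_le_card hsub)

open Classical in
/-- number of realisations of a pattern -/
noncomputable def cnt {V : Type} [Fintype V] {n m t q N : ℕ} (f : Fin n × Fin q ↪ V)
    (a : Fin t → Fin n → Option (Fin m)) (e : Fin N × Fin n → Fin q) : ℕ :=
  ((Finset.univ : Finset ((Fin m → V) × (Fin t → Fin N))).filter
    (fun p => Function.Injective p.2 ∧ Sat a p.1 p.2 (hyp f e))).card

lemma sum_cnt_le {V : Type} [Fintype V] {n m t q N : ℕ} (f : Fin n × Fin q ↪ V)
    (a : Fin t → Fin n → Option (Fin m)) :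
    (∑ e : Fin N × Fin n → Fin q, cnt f a e) * q ^ wt a
      ≤ Fintype.card V ^ m * N ^ t * q ^ (N * n) := by
  classical
  have h1 : ∑ e : Fin N × Fin n → Fin q, cnt f a e
      = ∑ p : (Fin m → V) × (Fin t → Fin N),
        (Finset.univ.filter (fun e : Fin N × Fin n → Fin q =>
          Function.Injective p.2 ∧ Sat a p.1 p.2 (hyp f e))).card := by
    simp only [cnt, Finset.card_filter]
    rw [Finset.sum_comm]
  rw [h1, Finset.sum_mul]
  have h2 : ∀ p ∈ (Finset.univ : Finset ((Fin m → V) × (Fin t → Fin N))),
      (Finset.univ.filter (fun e : Fin N × Fin n → Fin q =>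
          Function.Injective p.2 ∧ Sat a p.1 p.2 (hyp f e))).card * q ^ wt a ≤ q ^ (N * n) := by
    intro p _
    by_cases hp : Function.Injective p.2
    · have := card_sat_le f a p.1 p.2 hp
      refine le_trans (Nat.mul_le_mul_right _ (Finset.card_le_card ?_)) this
      intro e he
      rw [Finset.mem_filter] at he ⊢
      exact ⟨he.1, he.2.2⟩
    · have : (Finset.univ.filter (fun e : Fin N × Fin n → Fin q =>
          Function.Injective p.2 ∧ Sat a p.1 p.2 (hyp f e))) = ∅ := by
        rw [Finset.filter_eq_empty_iff]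
        intro e _ h
        exact hp h.1
      rw [this]
      simp
  refine (Finset.sum_le_card_nsmul _ _ _ h2).trans ?_
  rw [smul_eq_mul, Finset.card_univ, Fintype.card_prod, Fintype.card_fun, Fintype.card_fun,
    Fintype.card_fin, Fintype.card_fin, Fintype.card_fin]

/-- for a bad pattern the expected number of realisations is at most `const * q` -/
lemma sum_cnt_bad_le {V : Type} [Fintype V] {n m t M b c1 q N : ℕ} (hb : 1 ≤ b) (hM : 1 ≤ M)
    (hq : q = b ^ (2 * M)) (hN : N = b ^ (3 * M - 1))
    (f : Fin n × Fin q ↪ V) (hV : Fintype.card V ≤ c1 * q)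
    (a : Fin t → Fin n → Option (Fin m)) (ha : BadPat M a) :
    (∑ e : Fin N × Fin n → Fin q, cnt f a e) ≤ c1 ^ m * q * q ^ (N * n) := by
  have h1 := sum_cnt_le (N := N) f a
  have hq0 : 0 < q := by rw [hq]; positivity
  have h2 : Fintype.card V ^ m ≤ c1 ^ m * q ^ m := by
    rw [← mul_pow]
    exact Nat.pow_le_pow_left hV m
  have h3 : q ^ m * N ^ t ≤ q * q ^ wt a := by
    rw [hq, hN, ← pow_mul, ← pow_mul, ← pow_mul, ← pow_add, ← pow_add]
    apply Nat.pow_le_pow_right hb
    unfold BadPat at ha
    obtain ⟨M', rfl⟩ : ∃ M', M = M' + 1 := ⟨M - 1, by omega⟩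
    have e1 : 3 * (M' + 1) - 1 = 3 * M' + 2 := by omega
    rw [e1]
    simp only [Nat.add_sub_cancel] at ha
    nlinarith
  have h4 : 0 < q ^ wt a := by positivity
  apply Nat.le_of_mul_le_mul_right _ h4
  calc (∑ e : Fin N × Fin n → Fin q, cnt f a e) * q ^ wt a
      ≤ Fintype.card V ^ m * N ^ t * q ^ (N * n) := h1
    _ ≤ (c1 ^ m * q ^ m) * N ^ t * q ^ (N * n) :=
        Nat.mul_le_mul_right _ (Nat.mul_le_mul_right _ h2)
    _ = c1 ^ m * (q ^ m * N ^ t) * q ^ (N * n) := by ring
    _ ≤ c1 ^ m * (q * q ^ wt a) * q ^ (N * n) :=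
        Nat.mul_le_mul_right _ (Nat.mul_le_mul_left _ h3)
    _ = c1 ^ m * q * q ^ (N * n) * q ^ wt a := by ring

/-- all bad pattern counts together -/
noncomputable def total {V : Type} [Fintype V] {n q N : ℕ} (M C : ℕ) (f : Fin n × Fin q ↪ V)
    (e : Fin N × Fin n → Fin q) : ℕ :=
  ∑ m ∈ Finset.range (C + 1), ∑ t ∈ Finset.range C,
    ∑ a ∈ (Finset.univ : Finset (Fin (t + 1) → Fin n → Option (Fin m))).filter (BadPat M),
      cnt f a e

/-- number of patterns -/
noncomputable def npat (n C : ℕ) : ℕ :=
  ∑ m ∈ Finset.range (C + 1), ∑ t ∈ Finset.range C,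
    (Finset.univ : Finset (Fin (t + 1) → Fin n → Option (Fin m))).card

lemma exists_good {V : Type} [Fintype V] {n M b c1 q N C : ℕ} (hb : 1 ≤ b) (hM : 1 ≤ M)
    (hc1 : 1 ≤ c1)
    (hq : q = b ^ (2 * M)) (hN : N = b ^ (3 * M - 1))
    (f : Fin n × Fin q ↪ V) (hV : Fintype.card V ≤ c1 * q) :
    ∃ e : Fin N × Fin n → Fin q, total M C f e ≤ npat n C * c1 ^ C * q := by
  classical
  have hq0 : 0 < q := by rw [hq]; positivity
  have : Nonempty (Fin q) := ⟨⟨0, hq0⟩⟩
  have hsum : ∑ e : Fin N × Fin n → Fin q, total M C f e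
      ≤ ∑ e : Fin N × Fin n → Fin q, npat n C * c1 ^ C * q := by
    rw [Finset.sum_const, Finset.card_univ, Fintype.card_fun, Fintype.card_prod, Fintype.card_fin,
      Fintype.card_fin, Fintype.card_fin, smul_eq_mul]
    unfold total
    rw [Finset.sum_comm]
    have h1 : ∀ m ∈ Finset.range (C + 1), ∑ e : Fin N × Fin n → Fin q, ∑ t ∈ Finset.range C,
        ∑ a ∈ (Finset.univ : Finset (Fin (t + 1) → Fin n → Option (Fin m))).filter (BadPat M),
          cnt f a e ≤ ∑ t ∈ Finset.range C,
            (Finset.univ : Finset (Fin (t + 1) → Fin n → Option (Fin m))).card *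
              (c1 ^ C * q * q ^ (N * n)) := by
      intro m hm
      rw [Finset.mem_range] at hm
      rw [Finset.sum_comm]
      apply Finset.sum_le_sum
      intro t _
      rw [Finset.sum_comm]
      have h2 : ∀ a ∈ (Finset.univ : Finset (Fin (t + 1) → Fin n → Option (Fin m))).filter
          (BadPat M), ∑ e : Fin N × Fin n → Fin q, cnt f a e ≤ c1 ^ C * q * q ^ (N * n) := by
        intro a ha
        rw [Finset.mem_filter] at ha
        refine (sum_cnt_bad_le hb hM hq hN f hV a ha.2).trans ?_
        apply Nat.mul_le_mul_right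
        apply Nat.mul_le_mul_right
        exact Nat.pow_le_pow_right hc1 (by omega)
      refine (Finset.sum_le_card_nsmul _ _ _ h2).trans ?_
      rw [smul_eq_mul]
      apply Nat.mul_le_mul_right
      exact Finset.card_filter_le _ _
    refine (Finset.sum_le_sum h1).trans ?_
    unfold npat
    rw [Finset.sum_mul, Finset.sum_mul, Finset.mul_sum]
    apply le_of_eq
    apply Finset.sum_congr rfl
    intro m _
    rw [Finset.sum_mul, Finset.sum_mul, Finset.mul_sum]
    apply Finset.sum_congr rfl
    intro t _
    ring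
  obtain ⟨e, -, he⟩ := Finset.exists_le_of_sum_le (Finset.univ_nonempty) hsum
  exact ⟨e, he⟩

open Classical in
/-- hyperedges to be deleted -/
noncomputable def del {V : Type} [Fintype V] {n q N : ℕ} (M C : ℕ) (f : Fin n × Fin q ↪ V)
    (e : Fin N × Fin n → Fin q) : Finset (Fin N) :=
  (Finset.range (C + 1)).biUnion fun m => (Finset.range C).biUnion fun t =>
    ((Finset.univ : Finset (Fin (t + 1) → Fin n → Option (Fin m))).filter (BadPat M)).biUnion
      fun a => ((Finset.univ : Finset ((Fin m → V) × (Fin (t + 1) → Fin N))).filter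
        (fun p => Function.Injective p.2 ∧ Sat a p.1 p.2 (hyp f e))).image (fun p => p.2 0)

lemma card_del_le {V : Type} [Fintype V] {n q N : ℕ} (M C : ℕ) (f : Fin n × Fin q ↪ V)
    (e : Fin N × Fin n → Fin q) : (del M C f e).card ≤ total M C f e := by
  classical
  unfold del total
  refine Finset.card_biUnion_le.trans (Finset.sum_le_sum fun m _ => ?_)
  refine Finset.card_biUnion_le.trans (Finset.sum_le_sum fun t _ => ?_)
  refine Finset.card_biUnion_le.trans (Finset.sum_le_sum fun a _ => ?_)
  exact Finset.card_image_le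

lemma not_sat_of_del {V : Type} [Fintype V] {n q N : ℕ} {M C : ℕ} {f : Fin n × Fin q ↪ V}
    {e : Fin N × Fin n → Fin q} {m t : ℕ} (hm : m ≤ C) (ht : t < C)
    (a : Fin (t + 1) → Fin n → Option (Fin m)) (ha : BadPat M a)
    (v : Fin m → V) (j : Fin (t + 1) → Fin N) (hj : Function.Injective j)
    (hj0 : j 0 ∉ del M C f e) : ¬ Sat a v j (hyp f e) := by
  classical
  intro hsat
  apply hj0
  unfold del
  simp only [Finset.mem_biUnion, Finset.mem_range, Finset.mem_image, Finset.mem_filter,
    Finset.mem_univ, true_and]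
  exact ⟨m, by omega, t, ht, a, ha, (v, j), ⟨hj, hsat⟩, rfl⟩

/-- the key inequality for the surviving hyperedges -/
lemma key_ineq {V : Type} [Fintype V] [DecidableEq V] {n q N : ℕ} {M C : ℕ}
    {f : Fin n × Fin q ↪ V}
    {e : Fin N × Fin n → Fin q} (X : Finset V) (hX : X.card ≤ C)
    (I : {j // j ∉ del M C f e} → Finset (Fin n))
    (hI : ∀ j, ∀ i ∈ I j, hyp f e j.1 i ∈ X)
    (hT0 : (Finset.univ.filter (fun j => (I j).Nonempty)).Nonempty)
    (hT : (Finset.univ.filter (fun j => (I j).Nonempty)).card ≤ C) :
    2 * M * (∑ j, (I j).card + 1) <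
      (M - 1) * (Finset.univ.filter (fun j => (I j).Nonempty)).card
        + 2 * M * (X.card + (Finset.univ.filter (fun j => (I j).Nonempty)).card) := by
  classical
  set T := (Finset.univ.filter (fun j => (I j).Nonempty)) with hTdef
  obtain ⟨t, ht⟩ : ∃ t, T.card = t + 1 := ⟨T.card - 1, by
    have := Finset.card_pos.mpr hT0
    omega⟩
  by_contra hcon
  push Not at hcon
  -- enumerate
  let jT : Fin (t + 1) ≃ T := (finCongr ht.symm).trans T.equivFin.symm
  let vX : Fin X.card ≃ X := X.equivFin.symm
  let a : Fin (t + 1) → Fin n → Option (Fin X.card) := fun s i =>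
    if h : i ∈ I (jT s).1 then
      some (vX.symm ⟨hyp f e (jT s).1.1 i, hI _ i h⟩) else none
  have hwt : wt a = ∑ j, (I j).card := by
    unfold wt
    have h1 : ∑ j, (I j).card = ∑ j ∈ T, (I j).card := by
      symm
      apply Finset.sum_subset (Finset.subset_univ _)
      intro j _ hj
      rw [hTdef, Finset.mem_filter] at hj
      push Not at hj
      have := hj (Finset.mem_univ _)
      rw [Finset.card_eq_zero]
      exact this
    rw [h1, ← Finset.sum_coe_sort T (fun j => (I j).card)]
    rw [← Equiv.sum_comp jT (fun j => (I j.1).card)]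
    rw [Finset.card_filter, ← Finset.univ_product_univ, Finset.sum_product]
    apply Finset.sum_congr rfl
    intro s _
    rw [← Finset.card_filter]
    congr 1
    ext i
    rw [Finset.mem_filter]
    simp only [Finset.mem_univ, true_and, a]
    by_cases h : i ∈ I (jT s).1
    · simp [h]
    · simp [h]
  have hbad : BadPat M a := by
    unfold BadPat
    rw [hwt, ← ht]
    exact hcon
  have hsat : Sat a (fun x => (vX x).1) (fun s => (jT s).1.1) (hyp f e) := by
    intro s i x hx
    simp only [a] at hx
    by_cases h : i ∈ I (jT s).1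
    · rw [dif_pos h, Option.some.injEq] at hx
      rw [← hx]
      simp
    · rw [dif_neg h] at hx
      exact absurd hx (by simp)
  have hinj : Function.Injective (fun s => (jT s).1.1) := by
    intro s s' h
    exact jT.injective (Subtype.ext (Subtype.ext h))
  exact not_sat_of_del hX (by omega) a hbad _ _ hinj (jT 0).1.2 hsat

/-- choosing the subsets `I j` with prescribed total excess -/
lemma exists_choice {K : Type} [Fintype K] [DecidableEq K] {n : ℕ} (D : K → Finset (Fin n))
    (s : Finset K) (k : ℕ) (hk : k ≤ ∑ j ∈ s, ((D j).card - 1)) :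
    ∃ I : K → Finset (Fin n), (∀ j, I j ⊆ D j) ∧ (∀ j ∉ s, I j = ∅) ∧
      (s.filter (fun j => (I j).Nonempty)).card ≤ k ∧
      ∑ j ∈ s, (I j).card = k + (s.filter (fun j => (I j).Nonempty)).card ∧
      (1 ≤ k → (s.filter (fun j => (I j).Nonempty)).Nonempty) := by
  classical
  obtain ⟨c', h1, h2, h3⟩ := exists_sum_eq (fun j => (D j).card - 1) s k hk
  have h4 : ∀ j, ∃ I : Finset (Fin n), I ⊆ D j ∧ I.card = if c' j = 0 then 0 else c' j + 1 := by
    intro j
    by_cases hj : c' j = 0
    · exact ⟨∅, Finset.empty_subset _, by simp [hj]⟩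
    · rw [if_neg hj]
      apply Finset.exists_subset_card_eq
      have := h1 j
      omega
  choose I hI1 hI2 using h4
  have hne : ∀ j, (I j).Nonempty ↔ c' j ≠ 0 := by
    intro j
    rw [← Finset.card_pos, hI2 j]
    by_cases hj : c' j = 0
    · simp [hj]
    · simp [hj]
  have hsum : ∑ j ∈ s, (I j).card = k + (s.filter (fun j => (I j).Nonempty)).card := by
    rw [← h3, Finset.card_filter, ← Finset.sum_add_distrib]
    apply Finset.sum_congr rfl
    intro j _
    rw [hI2 j]
    by_cases hj : c' j = 0
    · rw [if_pos hj, if_neg, hj]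
      rw [hne j]
      exact not_not.mpr hj
    · rw [if_neg hj, if_pos]
      rw [hne j]
      exact hj
  refine ⟨I, hI1, ?_, ?_, hsum, ?_⟩
  · intro j hj
    rw [← Finset.card_eq_zero, hI2 j, if_pos (h2 j hj)]
  · rw [← h3, Finset.card_filter]
    apply Finset.sum_le_sum
    intro j _
    by_cases hj : c' j = 0
    · rw [if_neg]
      · omega
      · rw [hne j]
        exact not_not.mpr hj
    · rw [if_pos]
      · omega
      · rw [hne j]
        exact hj
  · intro hk1
    by_contra hcon
    rw [Finset.not_nonempty_iff_eq_empty, Finset.filter_eq_empty_iff] at hcon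
    have : ∑ j ∈ s, c' j = 0 := by
      apply Finset.sum_eq_zero
      intro j hj
      by_contra hc
      exact hcon hj ((hne j).mpr hc)
    omega

/-- The surviving hyperedges form a sparse family. -/
lemma sparse_of_del {V : Type} [Fintype V] [DecidableEq V] {n q N : ℕ} {M : ℕ}
    (hn : 2 ≤ n) (hM : 1 ≤ M) (f : Fin n × Fin q ↪ V) (e : Fin N × Fin n → Fin q) :
    Sparse (n * (M + 1))
      (fun j : {j // j ∉ del M (2 * (2 * (n * (M + 1)))) f e} => hyp f e j.1) := by
  classical
  set C0 := n * (M + 1) with hC0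
  set C := 2 * (2 * C0) with hC
  set g := (fun j : {j // j ∉ del M C f e} => hyp f e j.1) with hg
  have hC0n : n ≤ C0 := by rw [hC0]; nlinarith
  have hinj : ∀ j, Function.Injective (g j) := by
    intro j i i' h
    have := f.injective h
    simp only [Prod.mk.injEq] at this
    exact this.1
  -- general consequence of the key inequality
  have main : ∀ (X : Finset V) (k : ℕ), X.card ≤ 2 * C0 → 1 ≤ k → k ≤ C → k ≤ exc g X →
      2 * M * (k + 1) < (M - 1) * k + 2 * M * X.card := by
    intro X k hX hk1 hkC hk
    obtain ⟨I, hI1, -, hI3, hI4, hI5⟩ :=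
      exists_choice (fun j => Finset.univ.filter (fun i => g j i ∈ X)) Finset.univ k hk
    have hI1' : ∀ j, ∀ i ∈ I j, hyp f e j.1 i ∈ X := by
      intro j i hi
      have := hI1 j hi
      rw [Finset.mem_filter] at this
      exact this.2
    have hkey := key_ineq X (by omega) I hI1' (hI5 hk1) (by omega)
    rw [hI4] at hkey
    have hle : (M - 1) * (Finset.univ.filter (fun j => (I j).Nonempty)).card ≤ (M - 1) * k :=
      Nat.mul_le_mul_left _ hI3
    nlinarith
  refine ⟨hinj, ?_, ?_⟩
  · intro X hX h2
    by_contra hcon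
    have h := main X (2 * X.card - 2) hX (by omega) (by omega) (by omega)
    obtain ⟨x, hx⟩ : ∃ x, X.card = x + 1 := ⟨X.card - 1, by omega⟩
    obtain ⟨M', rfl⟩ : ∃ M', M = M' + 1 := ⟨M - 1, by omega⟩
    rw [hx] at h
    have e1 : 2 * (x + 1) - 2 = 2 * x := by omega
    rw [e1] at h
    simp only [Nat.add_sub_cancel] at h
    nlinarith
  · rintro X hX (hbig | ⟨j0, hj0⟩)
    · by_contra hcon
      have h2n : n ≤ 2 * X.card := by omega
      obtain ⟨k, hk⟩ : ∃ k, 2 * X.card = n + k := ⟨2 * X.card - n, by omega⟩
      have h := main X k hX (by nlinarith) (by omega) (by omega)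
      obtain ⟨M', rfl⟩ : ∃ M', M = M' + 1 := ⟨M - 1, by omega⟩
      simp only [Nat.add_sub_cancel] at h
      have h3 : 2 * (n * (M' + 1 + 1)) ≤ n + k := by rw [← hk, ← hC0]; omega
      have h4 : 2 * (M' + 1) * X.card = (M' + 1) * (n + k) := by rw [← hk]; ring
      rw [h4] at h
      nlinarith
    · by_contra hcon
      have hnX : n ≤ X.card := by
        have := Finset.card_le_card_of_injOn (s := (Finset.univ : Finset (Fin n))) (t := X) (g j0)
          (fun i _ => hj0 i) (hinj j0).injOn
        rwa [Finset.card_univ, Fintype.card_fin] at this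
      have hexc : exc g X = (n - 1) + ∑ j ∈ Finset.univ.erase j0,
          ((Finset.univ.filter (fun i => g j i ∈ X)).card - 1) := by
        unfold exc
        rw [← Finset.add_sum_erase _ _ (Finset.mem_univ j0)]
        congr 1
        have : (Finset.univ.filter (fun i => g j0 i ∈ X)) = Finset.univ := by
          rw [Finset.filter_eq_self]
          exact fun i _ => hj0 i
        rw [this, Finset.card_univ, Fintype.card_fin]
      obtain ⟨y, hy⟩ : ∃ y, X.card = n + y := ⟨X.card - n, by omega⟩
      obtain ⟨I, hI1, hI2, hI3, hI4, hI5⟩ :=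
        exists_choice (fun j => Finset.univ.filter (fun i => g j i ∈ X))
          (Finset.univ.erase j0) (2 * y + 1) (by omega)
      have hj0I : I j0 = ∅ := hI2 j0 (Finset.notMem_erase _ _)
      set I' : {j // j ∉ del M C f e} → Finset (Fin n) := Function.update I j0 Finset.univ with hI'
      have hne0 : (Finset.univ : Finset (Fin n)).Nonempty := ⟨⟨0, by omega⟩, Finset.mem_univ _⟩
      have hT : (Finset.univ.filter (fun j => (I' j).Nonempty))
          = insert j0 ((Finset.univ.erase j0).filter (fun j => (I j).Nonempty)) := by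
        ext j
        simp only [Finset.mem_filter, Finset.mem_univ, true_and, Finset.mem_insert,
          Finset.mem_erase, and_true]
        by_cases hj : j = j0
        · subst hj
          rw [hI', Function.update_self]
          simp [hne0]
        · rw [hI', Function.update_of_ne hj]
          simp [hj]
      have hTcard : (Finset.univ.filter (fun j => (I' j).Nonempty)).card
          = ((Finset.univ.erase j0).filter (fun j => (I j).Nonempty)).card + 1 := by
        rw [hT, Finset.card_insert_of_notMem]
        simp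
      have hsum : ∑ j, (I' j).card = n + ∑ j ∈ Finset.univ.erase j0, (I j).card := by
        rw [← Finset.add_sum_erase _ _ (Finset.mem_univ j0)]
        congr 1
        · rw [hI', Function.update_self, Finset.card_univ, Fintype.card_fin]
        · apply Finset.sum_congr rfl
          intro j hj
          rw [hI', Function.update_of_ne (Finset.ne_of_mem_erase hj)]
      have hI1' : ∀ j, ∀ i ∈ I' j, hyp f e j.1 i ∈ X := by
        intro j i hi
        by_cases hj : j = j0
        · subst hj
          exact hj0 i
        · rw [hI', Function.update_of_ne hj] at hi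
          have := hI1 j hi
          rw [Finset.mem_filter] at this
          exact this.2
      have hkey := key_ineq X (by omega) I' hI1'
        (by rw [hT]; exact Finset.insert_nonempty _ _) (by rw [hTcard]; omega)
      rw [hsum, hI4, hTcard] at hkey
      set T0 := ((Finset.univ.erase j0).filter (fun j => (I j).Nonempty)).card with hT0
      obtain ⟨M', rfl⟩ : ∃ M', M = M' + 1 := ⟨M - 1, by omega⟩
      simp only [Nat.add_sub_cancel] at hkey
      rw [hy] at hkey
      nlinarith

/-- Existence of sparse hypergraphs. -/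
theorem exists_sparse (n M c1 : ℕ) (hn : 2 ≤ n) (hM : 2 ≤ M) (hc1 : 1 ≤ c1) :
    ∃ b0, ∀ b ≥ b0, ∀ (V : Type) [Fintype V] [DecidableEq V],
      n * b ^ (2 * M) ≤ Fintype.card V → Fintype.card V ≤ c1 * b ^ (2 * M) →
      ∃ (K : Type) (_ : Fintype K) (_ : DecidableEq K) (g : K → Fin n → V),
        Sparse (n * (M + 1)) g ∧ b ^ (3 * M - 1) ≤ 2 * Fintype.card K := by
  classical
  set C := 2 * (2 * (n * (M + 1))) with hC
  refine ⟨2 * (npat n C * c1 ^ C) + 1, ?_⟩
  intro b hb V _ _ hV1 hV2
  have hb1 : 1 ≤ b := by omega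
  have hcard : Fintype.card (Fin n × Fin (b ^ (2 * M))) ≤ Fintype.card V := by
    rw [Fintype.card_prod, Fintype.card_fin, Fintype.card_fin]
    exact hV1
  obtain ⟨f⟩ := Function.Embedding.nonempty_of_card_le hcard
  obtain ⟨e, he⟩ := exists_good (C := C) (N := b ^ (3 * M - 1)) hb1 (by omega : 1 ≤ M) hc1 rfl rfl f hV2
  refine ⟨{j // j ∉ del M C f e}, inferInstance, inferInstance, fun j => hyp f e j.1,
    sparse_of_del hn (by omega) f e, ?_⟩
  have h1 := (card_del_le M C f e).trans he
  have h2 : Fintype.card {j // j ∉ del M C f e} = b ^ (3 * M - 1) - (del M C f e).card := by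
    rw [Fintype.card_subtype_compl, Fintype.card_fin, Fintype.card_coe]
  have h3 : 2 * (npat n C * c1 ^ C * b ^ (2 * M)) ≤ b ^ (3 * M - 1) := by
    have e1 : 3 * M - 1 = 2 * M + (M - 1) := by omega
    rw [e1, pow_add]
    have h4 : b ≤ b ^ (M - 1) := by
      calc b = b ^ 1 := (pow_one b).symm
        _ ≤ b ^ (M - 1) := Nat.pow_le_pow_right hb1 (by omega)
    calc 2 * (npat n C * c1 ^ C * b ^ (2 * M)) = b ^ (2 * M) * (2 * (npat n C * c1 ^ C)) := by ring
      _ ≤ b ^ (2 * M) * b := Nat.mul_le_mul_left _ (by omega)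
      _ ≤ b ^ (2 * M) * b ^ (M - 1) := Nat.mul_le_mul_left _ h4
  omega

end Pool.Agent.H177.Joints
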