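import Pool.Agent.H177.Joints.Defs

/-!
Upper bound for the number of joints.
-/

namespace Pool.Agent.H177.Joints

open Set Finset

variable {α : Type}

lemma IsLine.closure_pair {M : Matroid α} (hM : IsSimple M) {l : Set α} (hl : IsLine M l)
    {x y : α} (hx : x ∈ l) (hy : y ∈ l) (hxy : x ≠ y) : M.closure {x, y} = l := by
  have hE : l ⊆ M.E := hl.1.subset_ground
  have hI : M.Indep {x, y} := hM x (hE hx) y (hE hy)
  have hsub : ({x, y} : Set α) ⊆ l := by
    intro z hz
    rcases hz with rfl | hz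
    · exact hx
    · rw [Set.mem_singleton_iff] at hz
      exact hz ▸ hy
  have hB : M.IsBasis {x, y} l := by
    apply hI.isBasis_of_eRk_ge (by simp) hsub
    rw [hl.2, hI.eRk_eq_encard, Set.encard_pair hxy]
  rw [hB.closure_eq_closure, hl.1.closure]

lemma IsLine.eq_of_mem {M : Matroid α} (hM : IsSimple M) {l l' : Set α} (hl : IsLine M l)
    (hl' : IsLine M l') {x y : α} (hx : x ∈ l) (hy : y ∈ l) (hx' : x ∈ l') (hy' : y ∈ l')
    (hne : l ≠ l') : x = y := by
  by_contra hxy
  exact hne ((hl.closure_pair hM hx hy hxy).symm.trans (hl'.closure_pair hM hx' hy' hxy))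

lemma IsLine.subset_of_mem {M : Matroid α} (hM : IsSimple M) {l F : Set α} (hl : IsLine M l)
    (hF : M.IsFlat F) {x y : α} (hx : x ∈ l) (hy : y ∈ l) (hxy : x ≠ y)
    (hxF : x ∈ F) (hyF : y ∈ F) : l ⊆ F := by
  rw [← hl.closure_pair hM hx hy hxy, ← hF.closure]
  apply M.closure_subset_closure
  intro z hz
  rcases hz with rfl | hz
  · exact hxF
  · rw [Set.mem_singleton_iff] at hz
    exact hz ▸ hyF

/-- rank of a union of lines through a common point -/
lemma eRk_biUnion_le {M : Matroid α} [Finite α] (hM : IsSimple M) {x : α} (hxE : x ∈ M.E)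
    (S : Finset (Set α)) (hS : ∀ l ∈ S, IsLine M l ∧ x ∈ l) :
    M.eRk (⋃ l ∈ S, l) ≤ ((S.card + 1 : ℕ) : ℕ∞) := by
  classical
  induction S using Finset.induction_on with
  | empty => simp
  | insert l S hlS ih =>
    have ih' := ih (fun l' hl' => hS l' (Finset.mem_insert_of_mem hl'))
    obtain ⟨hl, hxl⟩ := hS l (Finset.mem_insert_self _ _)
    rw [Finset.card_insert_of_notMem hlS, Finset.set_biUnion_insert]
    by_cases hne : S.Nonempty
    · obtain ⟨l', hl'⟩ := hne
      have hsub := M.eRk_inter_add_eRk_union_le l (⋃ l ∈ S, l)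
      have h1 : (1 : ℕ∞) ≤ M.eRk (l ∩ ⋃ l ∈ S, l) := by
        have hx1 : M.eRk {x} = 1 := by
          have : M.Indep {x} := by
            have := hM x hxE x hxE
            simpa using this
          rw [this.eRk_eq_encard, Set.encard_singleton]
        rw [← hx1]
        apply M.eRk_mono
        intro z hz
        rw [Set.mem_singleton_iff] at hz
        subst hz
        refine ⟨hxl, ?_⟩
        simp only [Set.mem_iUnion]
        exact ⟨l', hl', (hS l' (Finset.mem_insert_of_mem hl')).2⟩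
      rw [hl.2] at hsub
      have h2 : (1 : ℕ∞) + M.eRk (l ∪ ⋃ l ∈ S, l) ≤ 2 + ((S.card + 1 : ℕ) : ℕ∞) :=
        (add_le_add_left h1 _).trans (hsub.trans (add_le_add_right ih' _))
      have h3 : (2 : ℕ∞) + ((S.card + 1 : ℕ) : ℕ∞) = 1 + ((S.card + 1 + 1 : ℕ) : ℕ∞) := by
        push_cast; ring
      rw [h3] at h2
      exact (ENat.add_le_add_iff_left (by simp)).mp h2
    · rw [Finset.not_nonempty_iff_eq_empty] at hne
      subst hne
      simp [hl.2]

/-- A family of joints with chosen lines through them. -/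
structure Config (M : Matroid α) (n : ℕ) where
  T : Finset (Set α)
  P : Finset α
  S : α → Finset (Set α)
  line : ∀ l ∈ T, IsLine M l
  S_sub : ∀ x ∈ P, S x ⊆ T
  S_card : ∀ x ∈ P, (S x).card = n
  S_mem : ∀ x ∈ P, ∀ l ∈ S x, x ∈ l
  S_rk : ∀ x ∈ P, ((n + 1 : ℕ) : ℕ∞) ≤ M.eRk (⋃ l ∈ S x, l)

namespace Config

variable {M : Matroid α} {n : ℕ} (c : Config M n)

open Classical in
/-- the lines of the configuration contained in `F` -/
noncomputable def linesIn (F : Set α) : Finset (Set α) := c.T.filter (fun l => l ⊆ F)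

open Classical in
/-- the joints of the configuration contained in `F` -/
noncomputable def jointsIn (F : Set α) : Finset α := c.P.filter (fun x => x ∈ F)

open Classical in
/-- the joints assigned to a line -/
noncomputable def on (l : Set α) : Finset α := c.P.filter (fun x => l ∈ c.S x)

lemma mem_linesIn {F l : Set α} : l ∈ c.linesIn F ↔ l ∈ c.T ∧ l ⊆ F := by
  simp [linesIn]

lemma mem_jointsIn {F : Set α} {x : α} : x ∈ c.jointsIn F ↔ x ∈ c.P ∧ x ∈ F := by
  simp [jointsIn]

lemma mem_on {l : Set α} {x : α} : x ∈ c.on l ↔ x ∈ c.P ∧ l ∈ c.S x := by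
  simp [on]

lemma exists_outside {F : Set α} (hF : M.eRk F ≤ n) {x : α} (hx : x ∈ c.P) :
    ∃ l ∈ c.S x, ¬ l ⊆ F := by
  by_contra hcon
  push Not at hcon
  have h1 := c.S_rk x hx
  have h2 : M.eRk (⋃ l ∈ c.S x, l) ≤ M.eRk F := by
    apply M.eRk_mono
    exact Set.iUnion₂_subset hcon
  have h3 : ((n + 1 : ℕ) : ℕ∞) ≤ (n : ℕ∞) := h1.trans (h2.trans hF)
  have h4 : n + 1 ≤ n := by exact_mod_cast h3
  omega

/-- a line through `x` not contained in `F` -/
noncomputable def out (F : Set α) (hF : M.eRk F ≤ n) (x : α) : Set α :=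
  open Classical in
  if hx : x ∈ c.P then (c.exists_outside hF hx).choose else ∅

lemma out_mem {F : Set α} (hF : M.eRk F ≤ n) {x : α} (hx : x ∈ c.P) :
    c.out F hF x ∈ c.S x := by
  unfold out
  rw [dif_pos hx]
  exact (c.exists_outside hF hx).choose_spec.1

lemma out_not_subset {F : Set α} (hF : M.eRk F ≤ n) {x : α} (hx : x ∈ c.P) :
    ¬ c.out F hF x ⊆ F := by
  unfold out
  rw [dif_pos hx]
  exact (c.exists_outside hF hx).choose_spec.2

lemma out_injOn (hM : IsSimple M) {F : Set α} (hflat : M.IsFlat F) (hF : M.eRk F ≤ n) :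
    Set.InjOn (c.out F hF) (c.jointsIn F : Set α) := by
  intro x hx y hy hxy
  rw [Finset.mem_coe, c.mem_jointsIn] at hx hy
  by_contra hne
  have h1 := c.out_mem hF hx.1
  have h2 := c.out_mem hF hy.1
  have hl : IsLine M (c.out F hF x) := c.line _ (c.S_sub x hx.1 h1)
  apply c.out_not_subset hF hx.1
  apply hl.subset_of_mem hM hflat (c.S_mem x hx.1 _ h1) _ hne hx.2 hy.2
  rw [hxy]
  exact c.S_mem y hy.1 _ h2

/-- Lemma A, first half: the lines of `F` have few joints -/
lemma sum_on_le {F : Set α} (hF : M.eRk F ≤ n) (hn : 1 ≤ n) :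
    ∑ l ∈ c.linesIn F, (c.on l).card ≤ (n - 1) * (c.jointsIn F).card := by
  classical
  have h1 : ∑ l ∈ c.linesIn F, (c.on l).card
      = ∑ x ∈ c.P, ((c.linesIn F).filter (fun l => l ∈ c.S x)).card := by
    simp only [on, Finset.card_filter]
    rw [Finset.sum_comm]
  rw [h1]
  have h2 : ∑ x ∈ c.P, ((c.linesIn F).filter (fun l => l ∈ c.S x)).card
      = ∑ x ∈ c.jointsIn F, ((c.linesIn F).filter (fun l => l ∈ c.S x)).card := by
    symm
    apply Finset.sum_subset
    · intro x hx
      exact ((c.mem_jointsIn).mp hx).1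
    · intro x hx hxF
      rw [Finset.card_eq_zero, Finset.filter_eq_empty_iff]
      intro l hl hlS
      apply hxF
      rw [c.mem_jointsIn]
      exact ⟨hx, ((c.mem_linesIn).mp hl).2 (c.S_mem x hx l hlS)⟩
  rw [h2, mul_comm, ← smul_eq_mul]
  apply Finset.sum_le_card_nsmul
  intro x hx
  rw [c.mem_jointsIn] at hx
  have h3 : ((c.linesIn F).filter (fun l => l ∈ c.S x)) ⊂ c.S x := by
    rw [Finset.ssubset_iff_of_subset]
    · obtain ⟨l, hl, hlF⟩ := c.exists_outside hF hx.1
      refine ⟨l, hl, ?_⟩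
      intro hmem
      rw [Finset.mem_filter, c.mem_linesIn] at hmem
      exact hlF hmem.1.2
    · intro l hl
      exact (Finset.mem_filter.mp hl).2
  have h4 := Finset.card_lt_card h3
  rw [c.S_card x hx.1] at h4
  omega

lemma jointsIn_card_le (hM : IsSimple M) {F : Set α} (hflat : M.IsFlat F) (hF : M.eRk F ≤ n) :
    (c.jointsIn F).card ≤ c.T.card := by
  apply Finset.card_le_card_of_injOn (c.out F hF) _ (c.out_injOn hM hflat hF)
  intro x hx
  rw [Finset.mem_coe, c.mem_jointsIn] at hx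
  exact c.S_sub x hx.1 (c.out_mem hF hx.1)

/-- Lemma A -/
lemma linesIn_mul_le (hM : IsSimple M) {F : Set α} (hflat : M.IsFlat F) (hF : M.eRk F ≤ n)
    (hn : 1 ≤ n) {D : ℕ} (hD : ∀ l ∈ c.T, D ≤ (c.on l).card) :
    (c.linesIn F).card * D ≤ (n - 1) * c.T.card := by
  have h1 : (c.linesIn F).card * D ≤ ∑ l ∈ c.linesIn F, (c.on l).card := by
    rw [← smul_eq_mul]
    apply Finset.card_nsmul_le_sum
    intro l hl
    exact hD l ((c.mem_linesIn).mp hl).1
  exact h1.trans ((c.sum_on_le hF hn).trans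
    (Nat.mul_le_mul_left _ (c.jointsIn_card_le hM hflat hF)))

open Classical in
/-- the lines meeting `w` at a chosen joint outside `F` -/
noncomputable def nbr (F w : Set α) : Finset (Set α) :=
  ((c.on w).filter (fun z => z ∉ F)).biUnion (fun z => (c.S z).erase w)

lemma mem_nbr {F w y : Set α} :
    y ∈ c.nbr F w ↔ ∃ z, z ∈ c.P ∧ w ∈ c.S z ∧ z ∉ F ∧ y ≠ w ∧ y ∈ c.S z := by
  classical
  simp only [nbr, Finset.mem_biUnion, Finset.mem_filter, c.mem_on, Finset.mem_erase]
  constructor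
  · rintro ⟨z, ⟨⟨h1, h2⟩, h3⟩, h4, h5⟩
    exact ⟨z, h1, h2, h3, h4, h5⟩
  · rintro ⟨z, h1, h2, h3, h4, h5⟩
    exact ⟨z, ⟨⟨h1, h2⟩, h3⟩, h4, h5⟩

lemma nbr_card (hM : IsSimple M) {F w : Set α} (hflat : M.IsFlat F) (hw : w ∈ c.T)
    (hwF : ¬ w ⊆ F) {D : ℕ} (hD : D ≤ (c.on w).card) :
    (D - 1) * (n - 1) ≤ (c.nbr F w).card := by
  classical
  have h1 : ((c.on w).filter (fun z => z ∈ F)).card ≤ 1 := by
    rw [Finset.card_le_one]
    intro x hx y hy
    rw [Finset.mem_filter, c.mem_on] at hx hy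
    by_contra hne
    apply hwF
    exact (c.line w hw).subset_of_mem hM hflat (c.S_mem x hx.1.1 w hx.1.2)
      (c.S_mem y hy.1.1 w hy.1.2) hne hx.2 hy.2
  have h2 : D - 1 ≤ ((c.on w).filter (fun z => z ∉ F)).card := by
    have := Finset.card_filter_add_card_filter_not (s := c.on w) (fun z => z ∈ F)
    omega
  have h3 : (c.nbr F w).card = ∑ z ∈ (c.on w).filter (fun z => z ∉ F), ((c.S z).erase w).card := by
    unfold nbr
    apply Finset.card_biUnion
    intro x hx y hy hxy
    rw [Finset.mem_coe, Finset.mem_filter, c.mem_on] at hx hy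
    rw [Function.onFun, Finset.disjoint_left]
    intro l hlx hly
    rw [Finset.mem_erase] at hlx hly
    apply hxy
    exact (c.line w hw).eq_of_mem hM (c.line l (c.S_sub x hx.1.1 hlx.2))
      (c.S_mem x hx.1.1 w hx.1.2) (c.S_mem y hy.1.1 w hy.1.2)
      (c.S_mem x hx.1.1 l hlx.2) (c.S_mem y hy.1.1 l hly.2) (Ne.symm hlx.1)
  rw [h3]
  have h4 : ∀ z ∈ (c.on w).filter (fun z => z ∉ F), ((c.S z).erase w).card = n - 1 := by
    intro z hz
    rw [Finset.mem_filter, c.mem_on] at hz
    rw [Finset.card_erase_of_mem hz.1.2, c.S_card z hz.1.1]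
  rw [Finset.sum_congr rfl h4, Finset.sum_const, smul_eq_mul]
  exact Nat.mul_le_mul_right _ h2

/-- Lemma B: growth -/
lemma exists_growth (hM : IsSimple M) {F : Set α} (hflat : M.IsFlat F) (hF : M.eRk F ≤ n)
    (hn : 2 ≤ n) {D : ℕ} (hD : ∀ l ∈ c.T, D ≤ (c.on l).card) (hT : c.T.Nonempty) :
    ∃ F' : Set α, M.IsFlat F' ∧ M.eRk F' ≤ M.eRk F + 2 ∧
      (c.linesIn F).card * (D * (D - 1)) ≤ (c.linesIn F').card * c.T.card := by
  classical
  set X : Finset (Set α) := (c.jointsIn F).image (c.out F hF) with hX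
  have hXcard : X.card = (c.jointsIn F).card :=
    Finset.card_image_of_injOn (c.out_injOn hM hflat hF)
  have hXT : ∀ w ∈ X, w ∈ c.T ∧ ¬ w ⊆ F ∧ ∃ x ∈ F, x ∈ w := by
    intro w hw
    rw [hX, Finset.mem_image] at hw
    obtain ⟨x, hx, rfl⟩ := hw
    rw [c.mem_jointsIn] at hx
    have hm := c.out_mem hF hx.1
    exact ⟨c.S_sub x hx.1 hm, c.out_not_subset hF hx.1, x, hx.2, c.S_mem x hx.1 _ hm⟩
  have h1 : (c.linesIn F).card * D ≤ (n - 1) * X.card := by
    rw [hXcard]
    have h1 : (c.linesIn F).card * D ≤ ∑ l ∈ c.linesIn F, (c.on l).card := by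
      rw [← smul_eq_mul]
      apply Finset.card_nsmul_le_sum
      intro l hl
      exact hD l ((c.mem_linesIn).mp hl).1
    exact h1.trans (c.sum_on_le hF (by omega))
  have h2 : X.card * ((D - 1) * (n - 1)) ≤ ∑ w ∈ X, (c.nbr F w).card := by
    rw [← smul_eq_mul]
    apply Finset.card_nsmul_le_sum
    intro w hw
    exact c.nbr_card hM hflat (hXT w hw).1 (hXT w hw).2.1 (hD w (hXT w hw).1)
  have h3 : ∑ w ∈ X, (c.nbr F w).card = ∑ y ∈ c.T, (X.filter (fun w => y ∈ c.nbr F w)).card := by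
    have h4 : ∀ w ∈ X, (c.nbr F w).card = (c.T.filter (fun y => y ∈ c.nbr F w)).card := by
      intro w hw
      congr 1
      ext y
      rw [Finset.mem_filter]
      constructor
      · intro hy
        refine ⟨?_, hy⟩
        rw [c.mem_nbr] at hy
        obtain ⟨z, h1, h2, h3, h4, h5⟩ := hy
        exact c.S_sub z h1 h5
      · exact fun h => h.2
    rw [Finset.sum_congr rfl h4]
    simp only [Finset.card_filter]
    rw [Finset.sum_comm]
  obtain ⟨y, hyT, hy⟩ : ∃ y ∈ c.T, X.card * ((D - 1) * (n - 1)) ≤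
      (X.filter (fun w => y ∈ c.nbr F w)).card * c.T.card := by
    by_contra hcon
    push Not at hcon
    have h5 : ∑ y ∈ c.T, (X.filter (fun w => y ∈ c.nbr F w)).card * c.T.card <
        ∑ y ∈ c.T, X.card * ((D - 1) * (n - 1)) := Finset.sum_lt_sum_of_nonempty hT hcon
    rw [← Finset.sum_mul, ← h3, Finset.sum_const, smul_eq_mul, mul_comm] at h5
    have h6 := Nat.mul_le_mul_left c.T.card h2
    exact absurd h5 (not_lt.mpr h6)
  refine ⟨M.closure (F ∪ y), M.isFlat_closure _, ?_, ?_⟩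
  · rw [M.eRk_closure_eq]
    refine (M.eRk_union_le_eRk_add_eRk F y).trans ?_
    rw [(c.line y hyT).2]
  · have h7 : X.filter (fun w => y ∈ c.nbr F w) ⊆ c.linesIn (M.closure (F ∪ y)) := by
      intro w hw
      rw [Finset.mem_filter] at hw
      obtain ⟨hwX, hwy⟩ := hw
      obtain ⟨hwT, hwF, x, hxF, hxw⟩ := hXT w hwX
      rw [c.mem_nbr] at hwy
      obtain ⟨z, hzP, hwz, hzF, hyw, hyz⟩ := hwy
      rw [c.mem_linesIn]
      refine ⟨hwT, ?_⟩
      have hE : F ∪ y ⊆ M.E := Set.union_subset hflat.subset_ground (c.line y hyT).1.subset_ground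
      have hsub := M.subset_closure (F ∪ y) hE
      apply (c.line w hwT).subset_of_mem hM (M.isFlat_closure _) hxw (c.S_mem z hzP w hwz)
      · rintro rfl
        exact hzF hxF
      · exact hsub (Or.inl hxF)
      · exact hsub (Or.inr (c.S_mem z hzP y hyz))
    have h8 := Finset.card_le_card h7
    calc (c.linesIn F).card * (D * (D - 1)) = ((c.linesIn F).card * D) * (D - 1) := by ring
      _ ≤ ((n - 1) * X.card) * (D - 1) := Nat.mul_le_mul_right _ h1
      _ = X.card * ((D - 1) * (n - 1)) := by ring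
      _ ≤ (X.filter (fun w => y ∈ c.nbr F w)).card * c.T.card := hy
      _ ≤ _ := Nat.mul_le_mul_right _ h8

/-- iterated growth -/
lemma exists_iter (hM : IsSimple M) (hn : 2 ≤ n) {D L : ℕ}
    (hD : ∀ l ∈ c.T, D ≤ (c.on l).card) (hT : c.T.Nonempty) (hL : c.T.card ≤ L) (i : ℕ)
    (hi : 2 * i ≤ n) (hi0 : 1 ≤ i) :
    ∃ F : Set α, M.IsFlat F ∧ M.eRk F ≤ ((2 * i : ℕ) : ℕ∞) ∧
      (D * (D - 1)) ^ (i - 1) ≤ (c.linesIn F).card * L ^ (i - 1) := by
  induction i with
  | zero => omega
  | succ i ih =>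
    rcases Nat.eq_zero_or_pos i with hi1 | hi1
    · subst hi1
      obtain ⟨l, hl⟩ := hT
      refine ⟨l, (c.line l hl).1, ?_, ?_⟩
      · rw [(c.line l hl).2]
        norm_num
      · have : 0 < (c.linesIn l).card := by
          rw [Finset.card_pos]
          exact ⟨l, (c.mem_linesIn).mpr ⟨hl, le_refl _⟩⟩
        simpa using this
    · obtain ⟨F, hflat, hrk, hcard⟩ := ih (by omega) hi1
      have hrk' : M.eRk F ≤ n := hrk.trans (by exact_mod_cast (by omega : 2 * i ≤ n))
      obtain ⟨F', hflat', hrk2, hcard'⟩ := c.exists_growth hM hflat hrk' hn hD hT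
      refine ⟨F', hflat', ?_, ?_⟩
      · refine hrk2.trans ?_
        have : ((2 * (i + 1) : ℕ) : ℕ∞) = ((2 * i : ℕ) : ℕ∞) + 2 := by push_cast; ring
        rw [this]
        exact add_le_add_left hrk 2
      · have e1 : i + 1 - 1 = (i - 1) + 1 := by omega
        rw [e1, pow_succ, pow_succ]
        calc (D * (D - 1)) ^ (i - 1) * (D * (D - 1))
            ≤ ((c.linesIn F).card * L ^ (i - 1)) * (D * (D - 1)) := Nat.mul_le_mul_right _ hcard
          _ = ((c.linesIn F).card * (D * (D - 1))) * L ^ (i - 1) := by ring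
          _ ≤ ((c.linesIn F').card * c.T.card) * L ^ (i - 1) := Nat.mul_le_mul_right _ hcard'
          _ ≤ ((c.linesIn F').card * L) * L ^ (i - 1) :=
              Nat.mul_le_mul_right _ (Nat.mul_le_mul_left _ hL)
          _ = _ := by ring

/-- the bound for a configuration of minimum degree `D` -/
lemma degree_bound (hM : IsSimple M) (hn : 2 ≤ n) {D L : ℕ}
    (hD : ∀ l ∈ c.T, D ≤ (c.on l).card) (hT : c.T.Nonempty) (hL : c.T.card ≤ L) (i : ℕ)
    (hi : 2 * i ≤ n) (hi0 : 1 ≤ i) :
    (D * (D - 1)) ^ (i - 1) * D ≤ (n - 1) * L ^ i := by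
  obtain ⟨F, hflat, hrk, hcard⟩ := c.exists_iter hM hn hD hT hL i hi hi0
  have hrk' : M.eRk F ≤ n := hrk.trans (by exact_mod_cast hi)
  have hA := c.linesIn_mul_le hM hflat hrk' (by omega) hD
  obtain ⟨j, rfl⟩ : ∃ j, i = j + 1 := ⟨i - 1, by omega⟩
  simp only [Nat.add_sub_cancel] at hcard ⊢
  calc (D * (D - 1)) ^ j * D ≤ ((c.linesIn F).card * L ^ j) * D := Nat.mul_le_mul_right _ hcard
    _ = ((c.linesIn F).card * D) * L ^ j := by ring
    _ ≤ ((n - 1) * c.T.card) * L ^ j := Nat.mul_le_mul_right _ hA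
    _ ≤ ((n - 1) * L) * L ^ j := Nat.mul_le_mul_right _ (Nat.mul_le_mul_left _ hL)
    _ = (n - 1) * L ^ (j + 1) := by ring

/-- restriction of a configuration to fewer lines -/
noncomputable def restrict (T' : Finset (Set α)) (hT' : T' ⊆ c.T) : Config M n := by
  classical
  exact
  { T := T'
    P := c.P.filter (fun x => c.S x ⊆ T')
    S := c.S
    line := fun l hl => c.line l (hT' hl)
    S_sub := fun x hx => (Finset.mem_filter.mp hx).2
    S_card := fun x hx => c.S_card x (Finset.mem_filter.mp hx).1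
    S_mem := fun x hx => c.S_mem x (Finset.mem_filter.mp hx).1
    S_rk := fun x hx => c.S_rk x (Finset.mem_filter.mp hx).1 }

/-- regularisation: pass to a sub-configuration of large minimum degree -/
lemma exists_regular (hn : 2 ≤ n) (hP : 0 < c.P.card) :
    ∃ c' : Config M n, c'.T.Nonempty ∧ c'.T.card ≤ c.T.card ∧
      ∀ l ∈ c'.T, c.P.card / c.T.card + 1 ≤ (c'.on l).card := by
  classical
  -- number of joints inside a set of lines
  set p : Finset (Set α) → ℕ := fun T' => (c.P.filter (fun x => c.S x ⊆ T')).card with hp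
  have hpT : p c.T = c.P.card := by
    rw [hp]
    simp only
    rw [Finset.filter_true_of_mem (fun x hx => c.S_sub x hx)]
  have hTne : c.T.Nonempty := by
    obtain ⟨x, hx⟩ := Finset.card_pos.mp hP
    have h1 := c.S_card x hx
    have h2 : (c.S x).Nonempty := by
      rw [← Finset.card_pos]; omega
    exact h2.mono (c.S_sub x hx)
  set good : Finset (Finset (Set α)) :=
    c.T.powerset.filter (fun T' => T'.Nonempty ∧ c.P.card * T'.card ≤ c.T.card * p T') with hgood
  have hgne : good.Nonempty := by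
    refine ⟨c.T, ?_⟩
    rw [hgood, Finset.mem_filter, Finset.mem_powerset]
    refine ⟨le_refl _, hTne, ?_⟩
    rw [hpT, mul_comm]
  obtain ⟨T', hT'g, hmin⟩ := Finset.exists_min_image good Finset.card hgne
  rw [hgood, Finset.mem_filter, Finset.mem_powerset] at hT'g
  obtain ⟨hT'sub, hT'ne, hT'ineq⟩ := hT'g
  refine ⟨c.restrict T' hT'sub, hT'ne, Finset.card_le_card hT'sub, ?_⟩
  intro l hl
  change l ∈ T' at hl
  have hon : ((c.restrict T' hT'sub).on l).card + p (T'.erase l) = p T' := by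
    have h1 : (c.restrict T' hT'sub).on l
        = (c.P.filter (fun x => c.S x ⊆ T')).filter (fun x => l ∈ c.S x) := by
      ext x
      simp only [mem_on, restrict, Finset.mem_filter]
    rw [h1, hp]
    simp only
    rw [← Finset.card_filter_add_card_filter_not (s := c.P.filter (fun x => c.S x ⊆ T'))
      (fun x => l ∈ c.S x)]
    congr 1
    congr 1
    ext x
    simp only [Finset.mem_filter]
    constructor
    · rintro ⟨h1, h2⟩
      refine ⟨⟨h1, h2.trans (Finset.erase_subset _ _)⟩, ?_⟩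
      intro h3
      exact absurd (h2 h3) (Finset.notMem_erase _ _)
    · rintro ⟨⟨h1, h2⟩, h3⟩
      refine ⟨h1, ?_⟩
      intro z hz
      rw [Finset.mem_erase]
      refine ⟨?_, h2 hz⟩
      rintro rfl
      exact h3 hz
  have hlt : c.T.card * p (T'.erase l) < c.P.card * (T'.erase l).card ∨ (T'.erase l) = ∅ := by
    by_contra hcon
    push Not at hcon
    obtain ⟨h1, h2⟩ := hcon
    have hmem : T'.erase l ∈ good := by
      rw [hgood, Finset.mem_filter, Finset.mem_powerset]
      exact ⟨(Finset.erase_subset _ _).trans hT'sub, h2, h1⟩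
    have h3 := hmin _ hmem
    have h4 := Finset.card_erase_lt_of_mem hl
    omega
  have hcardT : 0 < c.T.card := Finset.card_pos.mpr hTne
  have hkey : c.P.card < c.T.card * ((c.restrict T' hT'sub).on l).card := by
    rcases hlt with hlt | hlt
    · have h1 : (T'.erase l).card + 1 = T'.card := Finset.card_erase_add_one hl
      have h2 : c.T.card * p T' = c.T.card * ((c.restrict T' hT'sub).on l).card
          + c.T.card * p (T'.erase l) := by rw [← hon]; ring
      rw [← h1] at hT'ineq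
      rw [h2] at hT'ineq
      have h3 : c.P.card * ((T'.erase l).card + 1) = c.P.card * (T'.erase l).card + c.P.card := by
        ring
      rw [h3] at hT'ineq
      omega
    · exfalso
      have h1 : T' = {l} := by
        rw [← Finset.insert_erase hl, hlt]
        simp
      have h2 : p T' = 0 := by
        rw [hp]
        simp only
        rw [Finset.card_eq_zero, Finset.filter_eq_empty_iff]
        intro x hx hsub
        have h3 := Finset.card_le_card hsub
        rw [c.S_card x hx, h1, Finset.card_singleton] at h3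
        omega
      rw [h2] at hT'ineq
      have h3 : 0 < T'.card := Finset.card_pos.mpr hT'ne
      have h4 : 0 < c.P.card * T'.card := Nat.mul_pos hP h3
      omega
  have := (Nat.div_lt_iff_lt_mul hcardT).mpr (by rw [mul_comm] at hkey; exact hkey :
    c.P.card < ((c.restrict T' hT'sub).on l).card * c.T.card)
  omega

/-- integer form of the upper bound -/
lemma card_pow_le (hM : IsSimple M) (hn : 2 ≤ n) (i : ℕ) (hi : 2 * i ≤ n) (hi0 : 1 ≤ i) :
    c.P.card ^ (2 * i - 1) ≤ 2 ^ (i - 1) * (n - 1) * c.T.card ^ (3 * i - 1) := by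
  rcases Nat.eq_zero_or_pos c.P.card with hP | hP
  · rw [hP, zero_pow (by omega)]
    exact Nat.zero_le _
  · obtain ⟨c', hne, hcard, hD⟩ := c.exists_regular hn hP
    obtain ⟨D, hDdef⟩ : ∃ D, D = c.P.card / c.T.card + 1 := ⟨_, rfl⟩
    rw [← hDdef] at hD
    have hb := c'.degree_bound hM hn hD hne hcard i hi hi0
    have hTpos : 0 < c.T.card := lt_of_lt_of_le (Finset.card_pos.mpr hne) hcard
    have hPD : c.P.card ≤ D * c.T.card := by
      have := Nat.lt_div_mul_add (a := c.P.card) hTpos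
      rw [hDdef, add_mul, one_mul]
      exact this.le
    obtain ⟨j, rfl⟩ : ∃ j, i = j + 1 := ⟨i - 1, by omega⟩
    have e1 : 2 * (j + 1) - 1 = 2 * j + 1 := by omega
    have e2 : 3 * (j + 1) - 1 = 3 * j + 2 := by omega
    rw [e1, e2]
    simp only [Nat.add_sub_cancel] at hb ⊢
    have hD1 : 1 ≤ D := by rw [hDdef]; exact Nat.le_add_left 1 _
    have h1 : D ^ (2 * j + 1) ≤ 2 ^ j * ((n - 1) * c.T.card ^ (j + 1)) := by
      rcases Nat.lt_or_ge 1 D with h | h
      · have h2 : D * D ≤ 2 * (D * (D - 1)) := by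
          obtain ⟨e, rfl⟩ : ∃ e, D = e + 2 := ⟨D - 2, by omega⟩
          have : e + 2 - 1 = e + 1 := by omega
          rw [this]
          nlinarith
        calc D ^ (2 * j + 1) = (D * D) ^ j * D := by
              rw [pow_succ, pow_mul, pow_two]
          _ ≤ (2 * (D * (D - 1))) ^ j * D := Nat.mul_le_mul_right _ (Nat.pow_le_pow_left h2 _)
          _ = 2 ^ j * ((D * (D - 1)) ^ j * D) := by rw [mul_pow]; ring
          _ ≤ 2 ^ j * ((n - 1) * c.T.card ^ (j + 1)) := Nat.mul_le_mul_left _ hb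
      · have h3 : D = 1 := by omega
        rw [h3, one_pow]
        have : 0 < 2 ^ j * ((n - 1) * c.T.card ^ (j + 1)) := by
          apply Nat.mul_pos (by positivity)
          apply Nat.mul_pos (by omega) (by positivity)
        omega
    calc c.P.card ^ (2 * j + 1) ≤ (D * c.T.card) ^ (2 * j + 1) := Nat.pow_le_pow_left hPD _
      _ = D ^ (2 * j + 1) * c.T.card ^ (2 * j + 1) := mul_pow _ _ _
      _ ≤ (2 ^ j * ((n - 1) * c.T.card ^ (j + 1))) * c.T.card ^ (2 * j + 1) :=
          Nat.mul_le_mul_right _ h1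
      _ = 2 ^ j * (n - 1) * c.T.card ^ (3 * j + 2) := by ring

end Config

/-- From joints to a configuration. -/
lemma exists_config {α : Type} [Finite α] (M : Matroid α) (hM : IsSimple M) (n : ℕ)
    (Ls : Set (Set α)) (hL : ∀ l ∈ Ls, IsLine M l) :
    ∃ c : Config M n, c.T.card = Ls.ncard ∧ c.P.card = {x | IsJoint M n Ls x}.ncard := by
  classical
  have hLsfin : Ls.Finite := Set.toFinite _
  have hJfin : {x | IsJoint M n Ls x}.Finite := Set.toFinite _
  have key : ∀ x, IsJoint M n Ls x → ∃ S : Finset (Set α), (∀ l ∈ S, l ∈ Ls ∧ x ∈ l) ∧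
      S.card = n ∧ ((n + 1 : ℕ) : ℕ∞) ≤ M.eRk (⋃ l ∈ S, l) := by
    rintro x ⟨hxE, l, hl, hrk⟩
    set S : Finset (Set α) := Finset.univ.image l with hS
    have hmem : ∀ l' ∈ S, l' ∈ Ls ∧ x ∈ l' := by
      intro l' hl'
      rw [hS, Finset.mem_image] at hl'
      obtain ⟨i, -, rfl⟩ := hl'
      exact hl i
    have hU : (⋃ l' ∈ S, l') = ⋃ i, l i := by
      rw [hS]
      ext z
      simp
    have h1 := eRk_biUnion_le hM hxE S (fun l' hl' => ⟨hL l' (hmem l' hl').1, (hmem l' hl').2⟩)
    rw [hU] at h1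
    have h2 : ((n + 1 : ℕ) : ℕ∞) ≤ ((S.card + 1 : ℕ) : ℕ∞) := hrk.trans h1
    have h3 : n + 1 ≤ S.card + 1 := by exact_mod_cast h2
    have h4 : S.card ≤ n := by
      have := Finset.card_image_le (s := (Finset.univ : Finset (Fin n))) (f := l)
      rw [Finset.card_univ, Fintype.card_fin] at this
      exact this
    refine ⟨S, hmem, by omega, ?_⟩
    rw [hU]
    exact hrk
  choose! S hS1 hS2 hS3 using key
  refine ⟨{ T := hLsfin.toFinset
            P := hJfin.toFinset
            S := S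
            line := ?_
            S_sub := ?_
            S_card := ?_
            S_mem := ?_
            S_rk := ?_ }, ?_, ?_⟩
  · intro l hl
    rw [Set.Finite.mem_toFinset] at hl
    exact hL l hl
  · intro x hx l hl
    rw [Set.Finite.mem_toFinset] at hx ⊢
    exact (hS1 x hx l hl).1
  · intro x hx
    rw [Set.Finite.mem_toFinset] at hx
    exact hS2 x hx
  · intro x hx l hl
    rw [Set.Finite.mem_toFinset] at hx
    exact (hS1 x hx l hl).2
  · intro x hx
    rw [Set.Finite.mem_toFinset] at hx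
    exact hS3 x hx
  · rw [← Set.ncard_eq_toFinset_card]
  · rw [← Set.ncard_eq_toFinset_card]

/-- integer form of the upper bound, for the numbers of joints -/
theorem count_pow_le {n L j : ℕ} (hn : 2 ≤ n) (hj : j ∈ jointCounts n L) (i : ℕ)
    (hi : 2 * i ≤ n) (hi0 : 1 ≤ i) :
    j ^ (2 * i - 1) ≤ 2 ^ (i - 1) * (n - 1) * L ^ (3 * i - 1) := by
  obtain ⟨α, _, M, Ls, hM, hL, hcard, hjoint⟩ := hj
  obtain ⟨c, hT, hP⟩ := exists_config M hM n Ls hL
  have h := c.card_pow_le hM hn i hi hi0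
  rw [hT, hP, hcard, hjoint] at h
  exact h

theorem bddAbove_jointCounts {n : ℕ} (hn : 2 ≤ n) (L : ℕ) : BddAbove (jointCounts n L) := by
  refine ⟨(n - 1) * L ^ 2, ?_⟩
  intro j hj
  have := count_pow_le hn hj 1 (by omega) (le_refl _)
  simpa using this

theorem J_pow_le {n : ℕ} (L : ℕ) (hn : 2 ≤ n) (i : ℕ) (hi : 2 * i ≤ n) (hi0 : 1 ≤ i) :
    J n L ^ (2 * i - 1) ≤ 2 ^ (i - 1) * (n - 1) * L ^ (3 * i - 1) := by
  rcases Set.eq_empty_or_nonempty (jointCounts n L) with h | h
  · unfold J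
    rw [h, csSup_empty, Nat.bot_eq_zero, zero_pow (by omega)]
    exact Nat.zero_le _
  · exact count_pow_le hn (Nat.sSup_mem h (bddAbove_jointCounts hn L)) i hi hi0

end Pool.Agent.H177.Joints
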